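import Pool.Agent.Zk91.RG.Val

set_option autoImplicit false
set_option linter.unusedSectionVars false

/-!
# Vectors with entries in product sets: the count
-/

namespace Pool.Agent.Zk91.RG

open Finset

lemma KK_fin (n : ℕ) (hn : 1 ≤ n) : KK (Fin (n / 2)) (Fin (n - n / 2)) ≤ 2 ^ n * (√2 / √(n : ℝ)) := by
  unfold KK
  rw [Fintype.card_fin, Fintype.card_fin, show n / 2 + (n - n / 2) = n by omega, div_eq_mul_inv]
  apply mul_le_mul_of_nonneg_left _ (by positivity)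
  have hn0 : (0 : ℝ) < n := by exact_mod_cast hn
  have h1 : (n : ℝ) / 2 ≤ min ((n / 2 : ℕ) : ℝ) ((n - n / 2 : ℕ) : ℝ) + 1 := by
    have h2 : (n : ℝ) ≤ 2 * ((n / 2 : ℕ) : ℝ) + 1 := by
      have : n ≤ 2 * (n / 2) + 1 := by omega
      exact_mod_cast this
    have h3 : ((n / 2 : ℕ) : ℝ) ≤ ((n - n / 2 : ℕ) : ℝ) := by
      have : n / 2 ≤ n - n / 2 := by omega
      exact_mod_cast this
    rw [min_eq_left h3]
    linarith
  have h2 : √(n : ℝ) / √2 ≤ √(min ((n / 2 : ℕ) : ℝ) ((n - n / 2 : ℕ) : ℝ) + 1) := by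
    rw [← Real.sqrt_div hn0.le]
    exact Real.sqrt_le_sqrt h1
  rw [← inv_div]
  exact inv_anti₀ (by positivity) h2

open scoped Classical in
theorem two_val_fin {n m s : ℕ} (hm : 1 ≤ m) (hs : 1 ≤ s) (x y : Fin n → ℕ) (hne : ∀ i, x i ≠ y i)
    (hx : ∀ i, m ≤ x i ∧ x i ≤ m + s) (hy : ∀ i, m ≤ y i ∧ y i ≤ m + s)
    (h1 : 1000 * ((s : ℝ) + 2) ≤ √(n : ℝ)) :
    (((univ : Finset (Fin n → Bool)).filter fun ε => BadV (m + s) (mix x y ε)).card : ℝ) ≤
      2 ^ n * (30 * ((s : ℝ) + 2) ^ 5 / √(n : ℝ)) := by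
  have hsR : (1 : ℝ) ≤ s := by exact_mod_cast hs
  have hsq : 0 < √(n : ℝ) := by linarith
  have hn1 : 1 ≤ n := by
    rcases Nat.eq_zero_or_pos n with h0 | h0
    · rw [h0, Nat.cast_zero, Real.sqrt_zero] at hsq
      exact absurd hsq (lt_irrefl _)
    · exact h0
  let e : Fin (n / 2) ⊕ Fin (n - n / 2) ≃ Fin n := finSumFinEquiv.trans (finCongr (by omega))
  have h2 := two_val (α := Fin (n / 2)) (β := Fin (n - n / 2)) hm hs (fun i => x (e i)) (fun i => y (e i))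
    (fun i => hne _) (fun i => hx _) (fun i => hy _) (n := n) (by simp; omega) h1
  have h3 : ((univ : Finset (Fin n → Bool)).filter fun ε => BadV (m + s) (mix x y ε)).card ≤
      ((univ : Finset (Fin (n / 2) ⊕ Fin (n - n / 2) → Bool)).filter fun ε =>
        BadV (m + s) (mix (fun i => x (e i)) (fun i => y (e i)) ε)).card := by
    apply card_le_card_of_injOn (fun ε => fun i => ε (e i))
    · intro ε hε
      rw [mem_coe, mem_filter] at hε ⊢
      refine ⟨mem_univ _, ?_⟩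
      obtain ⟨_, d, h4, h5⟩ := hε
      have h6 : ∑ i, tr (mix (fun i => x (e i)) (fun i => y (e i)) (fun i => ε (e i)) i) =
          ∑ i, tr (mix x y ε i) := by
        rw [← Equiv.sum_comp e (fun i => tr (mix x y ε i))]
        rfl
      refine ⟨d, ?_, ?_⟩
      · rw [h6]
        exact h4
      · rw [h6]
        exact h5
    · intro ε _ ε' _ h
      funext i
      have := congrFun h (e.symm i)
      simpa using this
  have h4 : (((univ : Finset (Fin n → Bool)).filter fun ε => BadV (m + s) (mix x y ε)).card : ℝ) ≤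
      16 * s * (KK (Fin (n / 2)) (Fin (n - n / 2)) * (1 + (s : ℝ) ^ 2 * (s + 3) ^ 2 / 2)) :=
    le_trans (by exact_mod_cast h3) h2
  refine h4.trans ?_
  have hK := KK_fin n hn1
  have hs2 : √(2 : ℝ) ≤ 3 / 2 := by
    rw [Real.sqrt_le_left (by norm_num)]
    norm_num
  have hpoly : 24 * (s : ℝ) * (1 + (s : ℝ) ^ 2 * (s + 3) ^ 2 / 2) ≤ 30 * ((s : ℝ) + 2) ^ 5 := by
    have hs0 : (0 : ℝ) ≤ s := by linarith
    have : 0 ≤ 30 * ((s : ℝ) + 2) ^ 5 - 24 * (s : ℝ) * (1 + (s : ℝ) ^ 2 * (s + 3) ^ 2 / 2) := by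
      ring_nf
      positivity
    linarith
  calc 16 * s * (KK (Fin (n / 2)) (Fin (n - n / 2)) * (1 + (s : ℝ) ^ 2 * (s + 3) ^ 2 / 2))
      ≤ 16 * s * ((2 ^ n * (√2 / √(n : ℝ))) * (1 + (s : ℝ) ^ 2 * (s + 3) ^ 2 / 2)) := by gcongr
    _ ≤ 16 * s * ((2 ^ n * ((3 / 2) / √(n : ℝ))) * (1 + (s : ℝ) ^ 2 * (s + 3) ^ 2 / 2)) := by gcongr
    _ = 2 ^ n * ((24 * (s : ℝ) * (1 + (s : ℝ) ^ 2 * (s + 3) ^ 2 / 2)) / √(n : ℝ)) := by ring
    _ ≤ _ := by gcongr

/-- a permutation of a finite set without fixed points -/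
lemma exists_shift (W : Finset ℕ) (h : 2 ≤ W.card) : ∃ σ : ℕ → ℕ, (∀ a ∈ W, σ a ∈ W) ∧
    Set.InjOn σ W ∧ ∀ a ∈ W, σ a ≠ a := by
  classical
  obtain ⟨k, hk⟩ : ∃ k, W.card = k + 2 := ⟨W.card - 2, by omega⟩
  let e : W ≃ Fin (k + 2) := W.equivFinOfCardEq hk
  let p : W ≃ W := (e.trans (finRotate (k + 2))).trans e.symm
  have hp : ∀ a, p a ≠ a := by
    intro a ha
    have h1 : finRotate (k + 2) (e a) = e a := by
      have h2 := congrArg e ha
      simp [p] at h2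
    have h2 : e a ∈ (finRotate (k + 2)).support := by
      rw [support_finRotate]
      exact mem_univ _
    exact Equiv.Perm.mem_support.1 h2 h1
  refine ⟨fun a => if h : a ∈ W then (p ⟨a, h⟩ : ℕ) else a, fun a ha => ?_, fun a ha b hb hab => ?_, fun a ha hfix => ?_⟩
  · simp only [dif_pos ha]
    exact (p ⟨a, ha⟩).2
  · rw [mem_coe] at ha hb
    simp only [dif_pos ha, dif_pos hb] at hab
    have := p.injective (Subtype.ext hab)
    exact congrArg Subtype.val this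
  · simp only [dif_pos ha] at hfix
    exact hp ⟨a, ha⟩ (Subtype.ext hfix)

open scoped Classical in
/-- product sets -/
theorem box {n m s : ℕ} (hm : 1 ≤ m) (W : Fin n → Finset ℕ) (hW : ∀ i, 2 ≤ (W i).card)
    (hW2 : ∀ i, ∀ a ∈ W i, m ≤ a ∧ a ≤ m + s) (h1 : 1000 * ((s : ℝ) + 2) ≤ √(n : ℝ)) :
    (((Fintype.piFinset W).filter fun v => BadV (m + s) v).card : ℝ) ≤
      30 * ((s : ℝ) + 2) ^ 5 / √(n : ℝ) * (Fintype.piFinset W).card := by
  have hsq : 0 < √(n : ℝ) := lt_of_lt_of_le (by positivity) h1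
  have hn1 : 1 ≤ n := by
    rcases Nat.eq_zero_or_pos n with h0 | h0
    · rw [h0, Nat.cast_zero, Real.sqrt_zero] at hsq
      exact absurd hsq (lt_irrefl _)
    · exact h0
  have hs : 1 ≤ s := by
    have h2 : W ⟨0, hn1⟩ ⊆ Icc m (m + s) := fun a ha => mem_Icc.2 (hW2 _ a ha)
    have h3 := card_le_card h2
    rw [Nat.card_Icc] at h3
    have := hW ⟨0, hn1⟩
    omega
  choose σ hσ1 hσ2 hσ3 using fun i => exists_shift (W i) (hW i)
  set Pi₀ : Finset (Fin n → ℕ) := Fintype.piFinset W with hPi₀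
  have hmap : ∀ ε : Fin n → Bool, ∀ v ∈ Pi₀, mix v (fun i => σ i (v i)) ε ∈ Pi₀ := by
    intro ε v hv
    rw [hPi₀, Fintype.mem_piFinset] at hv ⊢
    intro i
    unfold mix
    split_ifs
    · exact hσ1 i _ (hv i)
    · exact hv i
  have hinj : ∀ ε : Fin n → Bool, Set.InjOn (fun v : Fin n → ℕ => mix v (fun i => σ i (v i)) ε) Pi₀ := by
    intro ε v hv v' hv' h
    rw [mem_coe, hPi₀, Fintype.mem_piFinset] at hv hv'
    funext i
    have h2 := congrFun h i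
    simp only [mix] at h2
    split_ifs at h2
    · exact hσ2 i (hv i) (hv' i) h2
    · exact h2
  have hsurj : ∀ ε : Fin n → Bool, Set.SurjOn (fun v : Fin n → ℕ => mix v (fun i => σ i (v i)) ε) Pi₀ Pi₀ := by
    intro ε
    exact Finset.surjOn_of_injOn_of_card_le _ (hmap ε) (hinj ε) le_rfl
  have h2 : ∀ ε : Fin n → Bool, (Pi₀.filter fun v => BadV (m + s) v).card ≤
      (Pi₀.filter fun v => BadV (m + s) (mix v (fun i => σ i (v i)) ε)).card := by
    intro ε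
    apply Finset.card_le_card_of_surjOn (fun v : Fin n → ℕ => mix v (fun i => σ i (v i)) ε)
    intro w hw
    rw [mem_coe, mem_filter] at hw
    obtain ⟨v, hv, hvw⟩ := hsurj ε (mem_coe.2 hw.1)
    refine ⟨v, ?_, hvw⟩
    rw [mem_coe, mem_filter]
    refine ⟨hv, ?_⟩
    have : mix v (fun i => σ i (v i)) ε = w := hvw
    rw [this]
    exact hw.2
  have h3 : ∑ _ε : Fin n → Bool, (Pi₀.filter fun v => BadV (m + s) v).card ≤
      ∑ v ∈ Pi₀, ((univ : Finset (Fin n → Bool)).filter fun ε => BadV (m + s) (mix v (fun i => σ i (v i)) ε)).card := by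
    refine (sum_le_sum fun ε _ => h2 ε).trans (le_of_eq ?_)
    simp only [card_filter]
    exact sum_comm
  rw [sum_const, card_univ, Fintype.card_fun, Fintype.card_bool, Fintype.card_fin, smul_eq_mul] at h3
  have h4 : ∀ v ∈ Pi₀, (((univ : Finset (Fin n → Bool)).filter fun ε =>
      BadV (m + s) (mix v (fun i => σ i (v i)) ε)).card : ℝ) ≤ 2 ^ n * (30 * ((s : ℝ) + 2) ^ 5 / √(n : ℝ)) := by
    intro v hv
    rw [hPi₀, Fintype.mem_piFinset] at hv
    exact two_val_fin hm hs v _ (fun i => (hσ3 i _ (hv i)).symm) (fun i => hW2 i _ (hv i))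
      (fun i => hW2 i _ (hσ1 i _ (hv i))) h1
  have h5 : (2 : ℝ) ^ n * ((Pi₀.filter fun v => BadV (m + s) v).card : ℝ) ≤
      Pi₀.card * (2 ^ n * (30 * ((s : ℝ) + 2) ^ 5 / √(n : ℝ))) := by
    calc (2 : ℝ) ^ n * ((Pi₀.filter fun v => BadV (m + s) v).card : ℝ)
        ≤ ∑ v ∈ Pi₀, (((univ : Finset (Fin n → Bool)).filter fun ε =>
          BadV (m + s) (mix v (fun i => σ i (v i)) ε)).card : ℝ) := by exact_mod_cast h3
      _ ≤ ∑ _v ∈ Pi₀, (2 : ℝ) ^ n * (30 * ((s : ℝ) + 2) ^ 5 / √(n : ℝ)) := sum_le_sum h4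
      _ = _ := by rw [sum_const, nsmul_eq_mul]
  have h6 : (0 : ℝ) < 2 ^ n := by positivity
  have h7 : (2 : ℝ) ^ n * ((Pi₀.filter fun v => BadV (m + s) v).card : ℝ) ≤
      2 ^ n * (30 * ((s : ℝ) + 2) ^ 5 / √(n : ℝ) * Pi₀.card) := by
    linarith
  exact le_of_mul_le_mul_left h7 h6

end Pool.Agent.Zk91.RG
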