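import Mathlib

set_option autoImplicit false

/-!
# Numbers `n` for which `n m (m + 1)` is slightly smaller than a product of two consecutive numbers

For fixed `m` the number of the `n ≤ N` for which there is a `u` with
`n m (m + 1) < u (u + 1) ≤ n m (m + 1) + 2 m` is at most about `√N τ(m)`; so for `m ≤ M ≤ √N`
together at most about `√N M log M`.
-/

namespace Pool.Agent.Zk91.RG

open Finset

/-- `u (u + 1)` is in the interval `(n m (m + 1), n m (m + 1) + 2 m]` for some `u`. -/
def Bad (m n : ℕ) : Prop := ∃ u : ℕ, n * (m * (m + 1)) < u * (u + 1) ∧ u * (u + 1) ≤ n * (m * (m + 1)) + 2 * m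

/-- number of divisors -/
def tau (k : ℕ) : ℕ := k.divisors.card

lemma card_mult {k g : ℕ} (hg : g ∣ k) (hk : 0 < k) :
    ((range k).filter fun v => g ∣ v).card ≤ k / g := by
  have hg0 : 0 < g := Nat.pos_of_dvd_of_pos hg hk
  rw [← card_range (k / g)]
  apply card_le_card_of_injOn (fun v => v / g)
  · intro v hv
    rw [mem_coe, mem_filter, mem_range] at hv
    rw [mem_coe, mem_range]
    exact Nat.div_lt_div_of_lt_of_dvd hg hv.1
  · intro v hv w hw h
    rw [mem_coe, mem_filter] at hv hw
    have h1 := Nat.div_mul_cancel hv.2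
    have h2 := Nat.div_mul_cancel hw.2
    simp only at h
    rw [← h1, ← h2, h]

lemma card_multZ {k g : ℕ} [NeZero k] (hg : g ∣ k) :
    ((univ : Finset (ZMod k)).filter fun v => g ∣ v.val).card ≤ k / g := by
  refine le_trans ?_ (card_mult hg (Nat.pos_of_ne_zero (NeZero.ne k)))
  apply card_le_card_of_injOn (fun v : ZMod k => v.val)
  · intro v hv
    rw [mem_coe, mem_filter] at hv
    rw [mem_coe, mem_filter, mem_range]
    exact ⟨ZMod.val_lt v, hv.2⟩
  · intro v _ w _ h
    exact ZMod.val_injective k h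

/-- pairs with product zero -/
lemma card_zero (k : ℕ) [NeZero k] :
    ((univ : Finset (ZMod k × ZMod k)).filter fun p => p.1 * p.2 = 0).card ≤ k * tau k := by
  have hk : 0 < k := Nat.pos_of_ne_zero (NeZero.ne k)
  have hsub : ((univ : Finset (ZMod k × ZMod k)).filter fun p => p.1 * p.2 = 0) ⊆
      k.divisors.biUnion fun g => ((univ : Finset (ZMod k)).filter fun v => g ∣ v.val) ×ˢ
        ((univ : Finset (ZMod k)).filter fun v => (k / g) ∣ v.val) := by
    intro p hp
    rw [mem_filter] at hp
    have h1 : k ∣ p.1.val * p.2.val := by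
      rw [← ZMod.natCast_eq_zero_iff, Nat.cast_mul, ZMod.natCast_zmod_val, ZMod.natCast_zmod_val]
      exact hp.2
    rw [mem_biUnion]
    refine ⟨Nat.gcd k p.1.val, Nat.mem_divisors.2 ⟨Nat.gcd_dvd_left _ _, hk.ne'⟩, ?_⟩
    rw [mem_product, mem_filter, mem_filter]
    refine ⟨⟨mem_univ _, Nat.gcd_dvd_right _ _⟩, mem_univ _, ?_⟩
    have hg : 0 < Nat.gcd k p.1.val := Nat.gcd_pos_of_pos_left _ hk
    have hc : Nat.Coprime (k / Nat.gcd k p.1.val) (p.1.val / Nat.gcd k p.1.val) :=
      Nat.coprime_div_gcd_div_gcd hg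
    apply hc.dvd_of_dvd_mul_left
    obtain ⟨c, hc'⟩ := h1
    refine ⟨c, ?_⟩
    have h2 := Nat.div_mul_cancel (Nat.gcd_dvd_left k p.1.val)
    have h3 := Nat.div_mul_cancel (Nat.gcd_dvd_right k p.1.val)
    apply Nat.eq_of_mul_eq_mul_right hg
    calc p.1.val / Nat.gcd k p.1.val * p.2.val * Nat.gcd k p.1.val
        = (p.1.val / Nat.gcd k p.1.val * Nat.gcd k p.1.val) * p.2.val := by ring
      _ = k * c := by rw [h3, hc']
      _ = (k / Nat.gcd k p.1.val * Nat.gcd k p.1.val) * c := by rw [h2]
      _ = k / Nat.gcd k p.1.val * c * Nat.gcd k p.1.val := by ring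
  refine (card_le_card hsub).trans ?_
  refine (card_biUnion_le).trans ?_
  have h4 : ∀ g ∈ k.divisors, (((univ : Finset (ZMod k)).filter fun v => g ∣ v.val) ×ˢ
        ((univ : Finset (ZMod k)).filter fun v => (k / g) ∣ v.val)).card ≤ k := by
    intro g hg
    have hgk := Nat.dvd_of_mem_divisors hg
    rw [card_product]
    refine (Nat.mul_le_mul (card_multZ hgk) (card_multZ (Nat.div_dvd_of_dvd hgk))).trans ?_
    rw [Nat.div_div_self hgk hk.ne']
    exact (Nat.div_mul_cancel hgk).le
  refine (sum_le_card_nsmul _ _ k h4).trans ?_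
  rw [smul_eq_mul, mul_comm]
  exact le_rfl

/-- at most two solutions of `x + x = c` modulo `k` -/
lemma two_fiber (k : ℕ) [NeZero k] (c : ZMod k) :
    ((univ : Finset (ZMod k)).filter fun x => x + x = c).card ≤ 2 := by
  by_contra hcon
  push Not at hcon
  obtain ⟨x, y, z, hx, hy, hz, hxy, hxz, hyz⟩ := two_lt_card_iff.1 hcon
  simp only [mem_filter, mem_univ, true_and] at hx hy hz
  have key : ∀ a b : ZMod k, a + a = c → b + b = c → a ≠ b → (a - b).val + (a - b).val = k := by
    intro a b ha hb hab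
    have h1 : (a - b) + (a - b) = 0 := by
      have : (a - b) + (a - b) = (a + a) - (b + b) := by ring
      rw [this, ha, hb, sub_self]
    have h2 : k ∣ (a - b).val + (a - b).val := by
      rw [← ZMod.natCast_eq_zero_iff, Nat.cast_add, ZMod.natCast_zmod_val]
      exact h1
    have h3 : (a - b).val < k := ZMod.val_lt _
    have h4 : 0 < (a - b).val := by
      rw [Nat.pos_iff_ne_zero, Ne, ZMod.val_eq_zero]
      exact sub_ne_zero.2 hab
    obtain ⟨e, he⟩ := h2
    have h5 : e < 2 := by
      by_contra h6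
      push Not at h6
      have : k * 2 ≤ k * e := Nat.mul_le_mul_left k h6
      omega
    have h6 : 0 < e := by
      rcases Nat.eq_zero_or_pos e with h | h
      · rw [h, mul_zero] at he
        omega
      · exact h
    have : e = 1 := by omega
    rw [this, mul_one] at he
    exact he
  have e1 := key x y hx hy hxy
  have e2 := key x z hx hz hxz
  apply hyz
  have : (x - y).val = (x - z).val := by omega
  have := ZMod.val_injective k this
  have h7 : x - y = x - z := this
  linear_combination (-1 : ZMod k) * h7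

/-- number of roots of `x (x + 1) = s` modulo `k` -/
def rho (k : ℕ) [NeZero k] (s : ZMod k) : ℕ :=
  ((univ : Finset (ZMod k)).filter fun x => x * (x + 1) = s).card

lemma energy (k : ℕ) [NeZero k] : ∑ s : ZMod k, rho k s ^ 2 ≤ 2 * (k * tau k) := by
  have h1 : ∑ s : ZMod k, rho k s ^ 2 =
      ((univ : Finset (ZMod k × ZMod k)).filter fun p => p.1 * (p.1 + 1) = p.2 * (p.2 + 1)).card := by
    rw [card_eq_sum_card_fiberwise (f := fun p : ZMod k × ZMod k => p.2 * (p.2 + 1))
      (t := (univ : Finset (ZMod k))) (fun _ _ => mem_coe.2 (mem_univ _))]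
    refine sum_congr rfl fun s _ => ?_
    rw [pow_two]
    unfold rho
    rw [← card_product]
    congr 1
    ext p
    simp only [mem_product, mem_filter, mem_univ, true_and]
    constructor
    · rintro ⟨h1, h2⟩
      exact ⟨h1.trans h2.symm, h2⟩
    · rintro ⟨h1, h2⟩
      exact ⟨h1.trans h2, h2⟩
  rw [h1]
  refine le_trans ?_ (Nat.mul_le_mul_left 2 (card_zero k))
  apply card_le_mul_card_image_of_maps_to (f := fun p : ZMod k × ZMod k => (p.1 - p.2, p.1 + p.2 + 1))
  · intro p hp
    rw [mem_filter] at hp ⊢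
    refine ⟨mem_univ _, ?_⟩
    simp only
    linear_combination hp.2
  · intro q _
    refine le_trans ?_ (two_fiber k (q.1 + q.2 - 1))
    apply card_le_card_of_injOn (fun p : ZMod k × ZMod k => p.1)
    · intro p hp
      rw [mem_coe, mem_filter] at hp
      rw [mem_coe, mem_filter]
      refine ⟨mem_univ _, ?_⟩
      have := hp.2
      rw [← this]
      simp only
      ring
    · intro p hp p' hp' h
      rw [mem_coe, mem_filter] at hp hp'
      simp only at h
      have h2 : p.1 - p.2 = p'.1 - p'.2 := by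
        have := congrArg Prod.fst (hp.2.trans hp'.2.symm)
        exact this
      rw [h] at h2
      have h3 : p.2 = p'.2 := by linear_combination (-1 : ZMod k) * h2
      exact Prod.ext h h3

/-- sums over an interval of a function on the residues -/
lemma interval {k a : ℕ} [NeZero k] (f : ZMod k → ℕ) (m : ℕ) (hm : m ≤ k) :
    ∑ r ∈ Ioc a (a + m), f (r : ZMod k) ≤ ∑ s : ZMod k, f s := by
  have hinj : Set.InjOn (fun r : ℕ => (r : ZMod k)) (Ioc a (a + m)) := by
    intro r hr r' hr' h
    rw [mem_coe, mem_Ioc] at hr hr'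
    have h1 : (r : ℕ) ≡ r' [MOD k] := (ZMod.natCast_eq_natCast_iff _ _ _).1 h
    rcases le_total r r' with h2 | h2
    · have := (Nat.modEq_iff_dvd' h2).1 h1
      have h3 : r' - r = 0 := Nat.eq_zero_of_dvd_of_lt this (by omega)
      omega
    · have := (Nat.modEq_iff_dvd' h2).1 h1.symm
      have h3 : r - r' = 0 := Nat.eq_zero_of_dvd_of_lt this (by omega)
      omega
  rw [← sum_image (f := f) (g := fun r : ℕ => (r : ZMod k)) hinj]
  exact sum_le_sum_of_subset (subset_univ _)

lemma interval2 {k : ℕ} [NeZero k] (f : ZMod k → ℕ) (m : ℕ) (hm : m ≤ k) :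
    ∑ r ∈ Ioc 0 (2 * m), f (r : ZMod k) ≤ 2 * ∑ s : ZMod k, f s := by
  have h1 : Ioc 0 (2 * m) = Ioc 0 (0 + m) ∪ Ioc m (m + m) := by
    ext x
    simp only [mem_union, mem_Ioc]
    omega
  rw [h1]
  refine (sum_union_inter (s₁ := Ioc 0 (0 + m)) (s₂ := Ioc m (m + m)) (f := fun r : ℕ => f (r : ZMod k)) ▸
    Nat.le_add_right _ _).trans ?_
  have h2 := interval (k := k) (a := 0) f m hm
  have h3 := interval (k := k) (a := m) f m hm
  omega

end Pool.Agent.Zk91.RG
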