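import Pool.Agent.Zk91.RG.Count

set_option autoImplicit false

/-!
# The number of the bad `n`
-/

namespace Pool.Agent.Zk91.RG

open Finset

/-- pairs of residues -/
def PrP (m : ℕ) (p : ZMod m × ZMod (m + 1)) : Prop :=
  ∃ r ∈ Ioc 0 (2 * m), p.1 * (p.1 + 1) = (r : ZMod m) ∧ p.2 * (p.2 + 1) = (r : ZMod (m + 1))

open scoped Classical in
/-- pairs of residues -/
noncomputable def Pr (m : ℕ) [NeZero m] : Finset (ZMod m × ZMod (m + 1)) :=
  (univ : Finset (ZMod m × ZMod (m + 1))).filter fun p => PrP m p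

/-- residues `u` -/
def UP (m u : ℕ) : Prop := ∃ r ∈ Ioc 0 (2 * m), m * (m + 1) ∣ u * (u + 1) - r ∧ r ≤ u * (u + 1)

/-- bad for some `m ≤ M` -/
def BadM (M n : ℕ) : Prop := ∃ m ∈ Ioc 0 M, Bad m n

open scoped Classical in
lemma card_Pr (m : ℕ) [NeZero m] :
    (Pr m).card ≤ 2 * (m * tau m) + 2 * ((m + 1) * tau (m + 1)) := by
  have hsub : Pr m ⊆ (Ioc 0 (2 * m)).biUnion fun r =>
      ((univ : Finset (ZMod m)).filter fun x => x * (x + 1) = (r : ZMod m)) ×ˢ
      ((univ : Finset (ZMod (m + 1))).filter fun x => x * (x + 1) = (r : ZMod (m + 1))) := by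
    intro p hp
    unfold Pr at hp
    rw [mem_filter] at hp
    obtain ⟨_, r, hr, h1, h2⟩ := hp
    rw [mem_biUnion]
    refine ⟨r, hr, ?_⟩
    rw [mem_product, mem_filter, mem_filter]
    exact ⟨⟨mem_univ _, h1⟩, mem_univ _, h2⟩
  have h1 : (Pr m).card ≤ ∑ r ∈ Ioc 0 (2 * m), rho m (r : ZMod m) * rho (m + 1) (r : ZMod (m + 1)) := by
    refine (card_le_card hsub).trans (card_biUnion_le.trans ?_)
    refine sum_le_sum fun r _ => ?_
    rw [card_product]
    rfl
  have h2 : 2 * ∑ r ∈ Ioc 0 (2 * m), rho m (r : ZMod m) * rho (m + 1) (r : ZMod (m + 1)) ≤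
      ∑ r ∈ Ioc 0 (2 * m), rho m (r : ZMod m) ^ 2 +
        ∑ r ∈ Ioc 0 (2 * m), rho (m + 1) (r : ZMod (m + 1)) ^ 2 := by
    rw [mul_sum, ← sum_add_distrib]
    refine sum_le_sum fun r _ => ?_
    have := two_mul_le_add_sq (rho m (r : ZMod m) : ℤ) (rho (m + 1) (r : ZMod (m + 1)))
    have h3 : ((2 * (rho m (r : ZMod m) * rho (m + 1) (r : ZMod (m + 1))) : ℕ) : ℤ) ≤
        ((rho m (r : ZMod m) ^ 2 + rho (m + 1) (r : ZMod (m + 1)) ^ 2 : ℕ) : ℤ) := by
      push_cast
      linarith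
    exact_mod_cast h3
  have h3 := interval2 (k := m) (fun s => rho m s ^ 2) m le_rfl
  have h4 := interval2 (k := m + 1) (fun s => rho (m + 1) s ^ 2) m (Nat.le_succ m)
  have h5 := energy m
  have h6 := energy (m + 1)
  omega

open scoped Classical in
/-- the numbers `u ≤ U` -/
lemma card_u (m : ℕ) [NeZero m] (U : ℕ) :
    ((range (U + 1)).filter fun u => UP m u).card ≤
      (U / (m * (m + 1)) + 1) * (Pr m).card := by
  have hm : 0 < m := Nat.pos_of_ne_zero (NeZero.ne m)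
  have hq : 0 < m * (m + 1) := by positivity
  rw [← card_range (U / (m * (m + 1)) + 1), ← card_product]
  apply card_le_card_of_injOn
    (fun u : ℕ => (u / (m * (m + 1)), ((u : ZMod m), (u : ZMod (m + 1)))))
  · intro u hu
    rw [mem_coe, mem_filter, mem_range] at hu
    obtain ⟨hu1, r, hr, hdvd, hle⟩ := hu
    rw [mem_coe, mem_product, mem_range]
    refine ⟨Nat.lt_succ_of_le (Nat.div_le_div_right (by omega)), ?_⟩
    unfold Pr
    rw [mem_filter]
    refine ⟨mem_univ _, r, hr, ?_, ?_⟩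
    · have h1 : m ∣ u * (u + 1) - r := (Dvd.intro _ rfl).trans hdvd
      have h2 := (ZMod.natCast_eq_zero_iff _ _).2 h1
      rw [Nat.cast_sub hle, sub_eq_zero] at h2
      simp only
      rw [← h2]
      push_cast
      ring
    · have h1 : (m + 1) ∣ u * (u + 1) - r := (Dvd.intro_left _ rfl).trans hdvd
      have h2 := (ZMod.natCast_eq_zero_iff _ _).2 h1
      rw [Nat.cast_sub hle, sub_eq_zero] at h2
      simp only
      rw [← h2]
      push_cast
      ring
  · intro u _ v _ h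
    simp only [Prod.mk.injEq] at h
    obtain ⟨h1, h2, h3⟩ := h
    have h4 : u ≡ v [MOD m] := (ZMod.natCast_eq_natCast_iff _ _ _).1 h2
    have h5 : u ≡ v [MOD (m + 1)] := (ZMod.natCast_eq_natCast_iff _ _ _).1 h3
    have h6 : u ≡ v [MOD m * (m + 1)] :=
      (Nat.modEq_and_modEq_iff_modEq_mul (by simp)).1 ⟨h4, h5⟩
    rw [← Nat.div_add_mod u (m * (m + 1)), ← Nat.div_add_mod v (m * (m + 1)), h1]
    have : u % (m * (m + 1)) = v % (m * (m + 1)) := h6
    rw [this]

open scoped Classical in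
/-- the bad `n` for one `m` -/
lemma card_bad (m : ℕ) [NeZero m] (N U : ℕ) (hU : (N + 1) * (m * (m + 1)) ≤ U * U + U + U) :
    ((range (N + 1)).filter fun n => Bad m n).card ≤ (U / (m * (m + 1)) + 1) * (Pr m).card := by
  have hm : 0 < m := Nat.pos_of_ne_zero (NeZero.ne m)
  have hq : 0 < m * (m + 1) := by positivity
  have h2m : 2 * m ≤ m * (m + 1) := by nlinarith
  refine le_trans ?_ (card_u m U)
  let g : ℕ → ℕ := fun n => if h : Bad m n then h.choose else 0
  have hg : ∀ n, Bad m n → n * (m * (m + 1)) < g n * (g n + 1) ∧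
      g n * (g n + 1) ≤ n * (m * (m + 1)) + 2 * m := by
    intro n h
    simp only [g, dif_pos h]
    exact h.choose_spec
  apply card_le_card_of_injOn g
  · intro n hn
    rw [mem_coe, mem_filter, mem_range] at hn
    obtain ⟨h1, h2⟩ := hg n hn.2
    rw [mem_coe, mem_filter, mem_range]
    refine ⟨?_, g n * (g n + 1) - n * (m * (m + 1)), ?_, ?_, Nat.sub_le _ _⟩
    · by_contra hcon
      push Not at hcon
      have h3 : g n * (g n + 1) ≤ (N + 1) * (m * (m + 1)) := by
        calc g n * (g n + 1) ≤ n * (m * (m + 1)) + 2 * m := h2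
          _ ≤ n * (m * (m + 1)) + m * (m + 1) := by omega
          _ = (n + 1) * (m * (m + 1)) := by ring
          _ ≤ (N + 1) * (m * (m + 1)) := Nat.mul_le_mul_right _ (by omega)
      have h4 : (U + 1) * (U + 1 + 1) ≤ g n * (g n + 1) := Nat.mul_le_mul hcon (by omega)
      nlinarith
    · rw [mem_Ioc]
      omega
    · have : g n * (g n + 1) - (g n * (g n + 1) - n * (m * (m + 1))) = n * (m * (m + 1)) := by omega
      rw [this]
      exact Dvd.intro_left _ rfl
  · intro n hn n' hn' h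
    rw [mem_coe, mem_filter] at hn hn'
    obtain ⟨h1, h2⟩ := hg n hn.2
    obtain ⟨h3, h4⟩ := hg n' hn'.2
    rw [h] at h1 h2
    rcases lt_trichotomy n n' with h5 | h5 | h5
    · exfalso
      have h6 : (n + 1) * (m * (m + 1)) ≤ n' * (m * (m + 1)) := Nat.mul_le_mul_right _ h5
      have h7 : (n + 1) * (m * (m + 1)) = n * (m * (m + 1)) + m * (m + 1) := by ring
      omega
    · exact h5
    · exfalso
      have h6 : (n' + 1) * (m * (m + 1)) ≤ n * (m * (m + 1)) := Nat.mul_le_mul_right _ h5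
      have h7 : (n' + 1) * (m * (m + 1)) = n' * (m * (m + 1)) + m * (m + 1) := by ring
      omega

/-- the sum of the divisor function -/
lemma sum_tau (M : ℕ) : (∑ m ∈ Ioc 0 M, tau m : ℕ) ≤ (M : ℝ) * (1 + Real.log M) := by
  have h1 : ∑ m ∈ Ioc 0 M, tau m ≤ ∑ d ∈ Ioc 0 M, M / d := by
    have h2 : ∀ m ∈ Ioc 0 M, tau m = ((Ioc 0 M).filter fun d => d ∣ m).card := by
      intro m hm
      rw [mem_Ioc] at hm
      unfold tau
      congr 1
      ext d
      rw [Nat.mem_divisors, mem_filter, mem_Ioc]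
      constructor
      · rintro ⟨h, _⟩
        exact ⟨⟨Nat.pos_of_dvd_of_pos h hm.1, (Nat.le_of_dvd hm.1 h).trans hm.2⟩, h⟩
      · rintro ⟨_, h⟩
        exact ⟨h, hm.1.ne'⟩
    rw [sum_congr rfl h2]
    have h3 : ∀ m ∈ Ioc 0 M, ((Ioc 0 M).filter fun d => d ∣ m).card =
        ∑ d ∈ Ioc 0 M, if d ∣ m then 1 else 0 := fun m _ => by rw [card_filter]
    rw [sum_congr rfl h3, sum_comm]
    refine sum_le_sum fun d _ => ?_
    rw [← card_filter, Nat.Ioc_filter_dvd_card_eq_div]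
  have h4 : ((∑ d ∈ Ioc 0 M, M / d : ℕ) : ℝ) ≤ M * (harmonic M : ℚ) := by
    rw [Nat.cast_sum, harmonic_eq_sum_Icc, Rat.cast_sum, mul_sum]
    have h5 : Ioc 0 M = Icc 1 M := rfl
    rw [h5]
    refine sum_le_sum fun d _ => ?_
    rw [Rat.cast_inv, Rat.cast_natCast]
    exact Nat.cast_div_le
  calc ((∑ m ∈ Ioc 0 M, tau m : ℕ) : ℝ) ≤ ((∑ d ∈ Ioc 0 M, M / d : ℕ) : ℝ) := by exact_mod_cast h1
    _ ≤ M * (harmonic M : ℚ) := h4
    _ ≤ M * (1 + Real.log M) := mul_le_mul_of_nonneg_left (harmonic_le_one_add_log M) (Nat.cast_nonneg _)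

open scoped Classical in
/-- the number of the bad `n ≤ N` for one `m` -/
theorem count_one (N m : ℕ) (hm : 0 < m) (hmN : m * m ≤ N) :
    (((range (N + 1)).filter fun n => Bad m n).card : ℝ) ≤
      12 * √(N : ℝ) * ((tau m : ℝ) + tau (m + 1)) := by
  have hN1 : 1 ≤ N := le_trans (Nat.one_le_iff_ne_zero.2 (by positivity)) hmN
  have hNR : (1 : ℝ) ≤ N := by exact_mod_cast hN1
  have hss : √(N : ℝ) * √(N : ℝ) = N := Real.mul_self_sqrt (by linarith)
  have hmR : (m : ℝ) ≤ √(N : ℝ) := by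
    apply Real.le_sqrt_of_sq_le
    rw [pow_two]
    exact_mod_cast hmN
  have : NeZero m := ⟨by omega⟩
  have hq : 0 < m * (m + 1) := by positivity
  set U : ℕ := Nat.sqrt ((N + 1) * (m * (m + 1))) with hU
  have hU1 : (N + 1) * (m * (m + 1)) ≤ U * U + U + U := Nat.sqrt_le_add _
  have hU2 : U * U ≤ (N + 1) * (m * (m + 1)) := Nat.sqrt_le _
  have h3 := card_bad m N U hU1
  have h4 := card_Pr m
  set t : ℕ := U / (m * (m + 1)) with ht
  have h5 : t * (m * (m + 1)) ≤ U := Nat.div_mul_le_self _ _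
  have h6 : t * t * (m * (m + 1)) ≤ N + 1 := by
    have h7 : (t * (m * (m + 1))) * (t * (m * (m + 1))) ≤ (N + 1) * (m * (m + 1)) :=
      (Nat.mul_le_mul h5 h5).trans hU2
    apply Nat.le_of_mul_le_mul_right _ hq
    calc t * t * (m * (m + 1)) * (m * (m + 1)) = (t * (m * (m + 1))) * (t * (m * (m + 1))) := by ring
      _ ≤ _ := h7
  have h7 : (t * m) * (t * m) ≤ 4 * N := by
    have h8 : (t * m) * (t * m) ≤ t * t * (m * (m + 1)) := by
      have : (t * m) * (t * m) = t * t * (m * m) := by ring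
      rw [this]
      exact Nat.mul_le_mul_left _ (Nat.mul_le_mul_left _ (Nat.le_succ m))
    omega
  have h8 : (t : ℝ) * m ≤ 2 * √(N : ℝ) := by
    have h9 : ((t : ℝ) * m) ^ 2 ≤ (2 * √(N : ℝ)) ^ 2 := by
      rw [mul_pow 2, pow_two (√(N : ℝ)), hss, pow_two]
      have : ((t : ℝ) * m) * ((t : ℝ) * m) ≤ 4 * N := by exact_mod_cast h7
      linarith
    exact le_of_sq_le_sq h9 (by positivity) |>.trans le_rfl
  have h9 : (((range (N + 1)).filter fun n => Bad m n).card : ℝ) ≤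
      ((t : ℝ) + 1) * (2 * (m * tau m) + 2 * ((m + 1) * tau (m + 1))) := by
    exact_mod_cast h3.trans (Nat.mul_le_mul_left _ h4)
  have h10 : (0 : ℝ) ≤ tau m := Nat.cast_nonneg _
  have h11 : (0 : ℝ) ≤ tau (m + 1) := Nat.cast_nonneg _
  have hm1 : (1 : ℝ) ≤ m := by exact_mod_cast hm
  have h12 : 2 * ((m : ℝ) * tau m) + 2 * ((m + 1) * tau (m + 1)) ≤ 4 * m * (tau m + tau (m + 1)) := by
    nlinarith
  have ht0 : (0 : ℝ) ≤ t := Nat.cast_nonneg _
  calc (((range (N + 1)).filter fun n => Bad m n).card : ℝ)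
      ≤ ((t : ℝ) + 1) * (2 * (m * tau m) + 2 * ((m + 1) * tau (m + 1))) := h9
    _ ≤ ((t : ℝ) + 1) * (4 * m * (tau m + tau (m + 1))) :=
        mul_le_mul_of_nonneg_left h12 (by positivity)
    _ = (4 * ((t : ℝ) * m) + 4 * m) * (tau m + tau (m + 1)) := by ring
    _ ≤ (12 * √(N : ℝ)) * (tau m + tau (m + 1)) := by
        apply mul_le_mul_of_nonneg_right _ (by positivity)
        linarith

open scoped Classical in
/-- the number of the bad `n ≤ N` for some `m ≤ M` -/
theorem count (N M : ℕ) (hM : 1 ≤ M) (hMN : M * M ≤ N) :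
    (((range (N + 1)).filter fun n => BadM M n).card : ℝ) ≤
      60 * √(N : ℝ) * M * (1 + Real.log N) := by
  have hN1 : 1 ≤ N := le_trans (Nat.one_le_iff_ne_zero.2 (by positivity)) hMN
  have hNR : (1 : ℝ) ≤ N := by exact_mod_cast hN1
  have hMR : (1 : ℝ) ≤ M := by exact_mod_cast hM
  have hsN : 1 ≤ √(N : ℝ) := by rw [Real.one_le_sqrt]; exact hNR
  have hss : √(N : ℝ) * √(N : ℝ) = N := Real.mul_self_sqrt (by linarith)
  have hMs : (M : ℝ) ≤ √(N : ℝ) := by
    apply Real.le_sqrt_of_sq_le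
    rw [pow_two]
    exact_mod_cast hMN
  have hMN' : M ≤ N := (Nat.le_mul_self M).trans hMN
  have hsub : ((range (N + 1)).filter fun n => BadM M n) ⊆
      (Ioc 0 M).biUnion fun m => (range (N + 1)).filter fun n => Bad m n := by
    intro n hn
    rw [mem_filter] at hn
    obtain ⟨h1, m, hm, h2⟩ := hn
    rw [mem_biUnion]
    exact ⟨m, hm, mem_filter.2 ⟨h1, h2⟩⟩
  have h1 : (((range (N + 1)).filter fun n => BadM M n).card : ℝ) ≤
      ∑ m ∈ Ioc 0 M, (((range (N + 1)).filter fun n => Bad m n).card : ℝ) := by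
    have := (card_le_card hsub).trans card_biUnion_le
    exact_mod_cast this
  have h2 : ∀ m ∈ Ioc 0 M, (((range (N + 1)).filter fun n => Bad m n).card : ℝ) ≤
      12 * √(N : ℝ) * ((tau m : ℝ) + tau (m + 1)) := by
    intro m hm
    rw [mem_Ioc] at hm
    exact count_one N m hm.1 ((Nat.mul_le_mul hm.2 hm.2).trans hMN)
  refine h1.trans ((sum_le_sum h2).trans ?_)
  rw [← mul_sum, sum_add_distrib]
  have hlogM : Real.log M ≤ Real.log N := Real.log_le_log (by linarith) (by exact_mod_cast hMN')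
  have hlogN : 0 ≤ Real.log N := Real.log_nonneg hNR
  have h3 : ((∑ m ∈ Ioc 0 M, (tau m : ℝ)) ) ≤ M * (1 + Real.log N) := by
    have h4 := sum_tau M
    push_cast at h4
    refine h4.trans ?_
    apply mul_le_mul_of_nonneg_left _ (Nat.cast_nonneg _)
    linarith
  have h4 : ((∑ m ∈ Ioc 0 M, (tau (m + 1) : ℝ)) ) ≤ 4 * M * (1 + Real.log N) := by
    have h5 : ((∑ m ∈ Ioc 0 M, (tau (m + 1) : ℝ)) ) ≤ ((∑ m ∈ Ioc 0 (M + 1), (tau m : ℝ)) ) := by
      have h6 : ((∑ m ∈ Ioc 0 M, (tau (m + 1) : ℝ)) ) = ((∑ m ∈ (Ioc 0 M).image (fun m => m + 1), (tau m : ℝ)) ) := by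
        rw [sum_image]
        intro a _ b _ h
        simpa using h
      rw [h6]
      apply sum_le_sum_of_subset_of_nonneg
      · intro x hx
        rw [mem_image] at hx
        obtain ⟨y, hy, rfl⟩ := hx
        rw [mem_Ioc] at hy ⊢
        omega
      · intro _ _ _
        exact Nat.cast_nonneg _
    have h6 := sum_tau (M + 1)
    push_cast at h6
    have h7 : Real.log ((M : ℝ) + 1) ≤ 1 + Real.log N := by
      have h8 : Real.log ((M : ℝ) + 1) ≤ Real.log (2 * M) := Real.log_le_log (by linarith) (by linarith)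
      rw [Real.log_mul (by norm_num) (by linarith)] at h8
      have := Real.log_two_lt_d9
      linarith
    calc _ ≤ _ := h5
      _ ≤ ((M : ℝ) + 1) * (1 + Real.log ((M : ℝ) + 1)) := h6
      _ ≤ (2 * M) * (2 * (1 + Real.log N)) := by
          apply mul_le_mul (by linarith) (by linarith) _ (by positivity)
          have : 0 ≤ Real.log ((M : ℝ) + 1) := Real.log_nonneg (by linarith)
          linarith
      _ = _ := by ring
  calc 12 * √(N : ℝ) * ((∑ m ∈ Ioc 0 M, (tau m : ℝ)) + (∑ m ∈ Ioc 0 M, (tau (m + 1) : ℝ)))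
      ≤ 12 * √(N : ℝ) * (M * (1 + Real.log N) + 4 * M * (1 + Real.log N)) := by
        apply mul_le_mul_of_nonneg_left _ (by positivity)
        linarith
    _ = _ := by ring

end Pool.Agent.Zk91.RG
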