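import Mathlib

set_option autoImplicit false
set_option linter.unusedSectionVars false

/-!
# A theorem of Littlewood-Offord type with weights

Subset sums of integers `δ i` in `[L, Δ]`: an interval of length `L` contains few of them, and fewer far from the mean.
-/

namespace Pool.Agent.Zk91.RG

open Finset

lemma central_sq (k : ℕ) : (k.centralBinom) ^ 2 * (2 * k + 1) ≤ 16 ^ k := by
  induction k with
  | zero => simp
  | succ k ih =>
    have h1 := Nat.succ_mul_centralBinom_succ k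
    have h2 : (k + 1) ^ 2 * ((k + 1).centralBinom ^ 2 * (2 * (k + 1) + 1)) ≤ (k + 1) ^ 2 * 16 ^ (k + 1) := by
      calc (k + 1) ^ 2 * ((k + 1).centralBinom ^ 2 * (2 * (k + 1) + 1))
          = ((k + 1) * (k + 1).centralBinom) ^ 2 * (2 * k + 3) := by ring
        _ = (2 * (2 * k + 1) * k.centralBinom) ^ 2 * (2 * k + 3) := by rw [h1]
        _ = (4 * ((2 * k + 1) * (2 * k + 3))) * (k.centralBinom ^ 2 * (2 * k + 1)) := by ring
        _ ≤ (4 * ((2 * k + 1) * (2 * k + 3))) * 16 ^ k := Nat.mul_le_mul_left _ ih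
        _ ≤ (4 * (2 * k + 2) ^ 2) * 16 ^ k := by
            apply Nat.mul_le_mul_right
            nlinarith
        _ = (k + 1) ^ 2 * 16 ^ (k + 1) := by ring
    exact Nat.le_of_mul_le_mul_left h2 (by positivity)

lemma choose_half (n : ℕ) : (n.choose (n / 2)) ^ 2 * (n + 1) ≤ 4 ^ n := by
  rcases Nat.even_or_odd' n with ⟨k, rfl | rfl⟩
  · have h1 := central_sq k
    rw [Nat.centralBinom] at h1
    rw [Nat.mul_div_cancel_left k (by norm_num), pow_mul]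
    exact h1
  · have h1 := central_sq (k + 1)
    rw [Nat.centralBinom] at h1
    have h2 : (2 * (k + 1)).choose (k + 1) = 2 * (2 * k + 1).choose k := by
      have e : 2 * (k + 1) = (2 * k + 1) + 1 := by ring
      rw [e, Nat.choose_succ_succ, Nat.succ_eq_add_one, Nat.choose_symm_half]
      ring
    have h3 : (2 * k + 1) / 2 = k := by omega
    rw [h2] at h1
    rw [h3]
    have h4 : 16 ^ (k + 1) = 4 * 4 ^ (2 * k + 1) := by
      rw [pow_succ 4 (2 * k), pow_mul, pow_succ]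
      norm_num
      ring
    rw [h4] at h1
    nlinarith [sq_nonneg ((2 * k + 1).choose k)]

lemma choose_half_real (n : ℕ) : ((n.choose (n / 2) : ℕ) : ℝ) ≤ 2 ^ n / √((n : ℝ) + 1) := by
  have h1 := choose_half n
  have h2 : (((n.choose (n / 2) : ℕ) : ℝ)) ^ 2 * (n + 1) ≤ 4 ^ n := by exact_mod_cast h1
  have h3 : (0 : ℝ) < (n : ℝ) + 1 := by positivity
  rw [le_div_iff₀ (Real.sqrt_pos.2 h3)]
  apply le_of_sq_le_sq _ (by positivity)
  rw [mul_pow, Real.sq_sqrt h3.le, ← pow_mul, mul_comm n 2, pow_mul]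
  norm_num
  exact h2

section
variable {α β : Type} [Fintype α] [DecidableEq α] [Fintype β] [DecidableEq β]

/-- Littlewood-Offord-Erdős -/
lemma lo (δ : α → ℤ) (L : ℕ) (hδ : ∀ i, (L : ℤ) ≤ δ i) (c : ℤ) :
    ((univ : Finset (Finset α)).filter fun A => c ≤ ∑ i ∈ A, δ i ∧ ∑ i ∈ A, δ i < c + L).card ≤
      (Fintype.card α).choose (Fintype.card α / 2) := by
  apply IsAntichain.sperner
  intro A hA B hB hne hle
  rw [mem_coe, mem_filter] at hA hB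
  have hss : A ⊂ B := lt_of_le_of_ne hle hne
  obtain ⟨i, hiB, hiA⟩ := exists_of_ssubset hss
  have h1 : ∑ j ∈ insert i A, δ j ≤ ∑ j ∈ B, δ j := by
    apply sum_le_sum_of_subset_of_nonneg
    · intro j hj
      rw [mem_insert] at hj
      rcases hj with rfl | hj
      · exact hiB
      · exact hle hj
    · intro j _ _
      exact (Int.natCast_nonneg L).trans (hδ j)
  rw [sum_insert hiA] at h1
  have := hδ i
  linarith [hA.2.1, hB.2.2]

lemma variance (δ : α → ℤ) (U : Finset α) :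
    ∑ A ∈ U.powerset, (2 * ∑ i ∈ A, δ i - ∑ i ∈ U, δ i) ^ 2 = 2 ^ U.card * ∑ i ∈ U, δ i ^ 2 := by
  induction U using Finset.induction_on with
  | empty => simp
  | insert a U ha ih =>
    rw [sum_powerset_insert ha, card_insert_of_notMem ha, sum_insert ha, sum_insert ha, ← sum_add_distrib]
    have h1 : ∀ A ∈ U.powerset, (2 * ∑ i ∈ A, δ i - (δ a + ∑ i ∈ U, δ i)) ^ 2 +
        (2 * ∑ i ∈ insert a A, δ i - (δ a + ∑ i ∈ U, δ i)) ^ 2 =
        2 * (2 * ∑ i ∈ A, δ i - ∑ i ∈ U, δ i) ^ 2 + 2 * δ a ^ 2 := by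
      intro A hA
      rw [sum_insert (fun h => ha (mem_powerset.1 hA h))]
      ring
    rw [sum_congr rfl h1, sum_add_distrib, ← mul_sum, ih, sum_const, card_powerset]
    simp only [nsmul_eq_mul]
    push_cast
    ring

lemma variance_univ (δ : α → ℤ) :
    ∑ A : Finset α, (2 * ∑ i ∈ A, δ i - ∑ i, δ i) ^ 2 = 2 ^ Fintype.card α * ∑ i, δ i ^ 2 := by
  have := variance δ univ
  rwa [powerset_univ, card_univ] at this

/-- the sum attached to a pair of subsets -/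
def S2 (δ : α → ℤ) (δ' : β → ℤ) (p : Finset α × Finset β) : ℤ := ∑ i ∈ p.1, δ i + ∑ i ∈ p.2, δ' i

/-- the pairs with sum in `[c, c + L)` -/
def Wn (δ : α → ℤ) (δ' : β → ℤ) (L : ℕ) (c : ℤ) : Finset (Finset α × Finset β) :=
  (univ : Finset (Finset α × Finset β)).filter fun p => c ≤ S2 δ δ' p ∧ S2 δ δ' p < c + L

lemma sum_Wn_left (δ : α → ℤ) (δ' : β → ℤ) {L : ℕ} (hδ' : ∀ i, (L : ℤ) ≤ δ' i) (c : ℤ) (f : Finset α → ℝ)
    (hf : ∀ A, 0 ≤ f A) :
    ∑ p ∈ Wn δ δ' L c, f p.1 ≤ (∑ A : Finset α, f A) *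
      ((Fintype.card β).choose (Fintype.card β / 2) : ℕ) := by
  unfold Wn
  rw [sum_filter, ← univ_product_univ, sum_product, sum_mul]
  refine sum_le_sum fun A _ => ?_
  rw [← sum_filter]
  dsimp only
  rw [sum_const, nsmul_eq_mul, mul_comm]
  apply mul_le_mul_of_nonneg_left _ (hf A)
  have h1 := lo δ' L hδ' (c - ∑ i ∈ A, δ i)
  apply Nat.cast_le.2
  refine le_trans ?_ h1
  apply card_le_card
  intro B hB
  rw [mem_filter] at hB ⊢
  unfold S2 at hB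
  refine ⟨mem_univ _, ?_, ?_⟩
  · linarith [hB.2.1]
  · linarith [hB.2.2]

lemma sum_Wn_right (δ : α → ℤ) (δ' : β → ℤ) {L : ℕ} (hδ : ∀ i, (L : ℤ) ≤ δ i) (c : ℤ) (f : Finset β → ℝ)
    (hf : ∀ A, 0 ≤ f A) :
    ∑ p ∈ Wn δ δ' L c, f p.2 ≤ (∑ A : Finset β, f A) *
      ((Fintype.card α).choose (Fintype.card α / 2) : ℕ) := by
  unfold Wn
  rw [sum_filter, ← univ_product_univ, sum_product_right, sum_mul]
  refine sum_le_sum fun A _ => ?_
  rw [← sum_filter]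
  dsimp only
  rw [sum_const, nsmul_eq_mul, mul_comm]
  apply mul_le_mul_of_nonneg_left _ (hf A)
  have h1 := lo δ L hδ (c - ∑ i ∈ A, δ' i)
  apply Nat.cast_le.2
  refine le_trans ?_ h1
  apply card_le_card
  intro B hB
  rw [mem_filter] at hB ⊢
  unfold S2 at hB
  refine ⟨mem_univ _, ?_, ?_⟩
  · linarith [hB.2.1]
  · linarith [hB.2.2]

/-- twice the deviation from the mean -/
def Dv (δ : α → ℤ) (δ' : β → ℤ) (p : Finset α × Finset β) : ℤ :=
  2 * S2 δ δ' p - (∑ i, δ i + ∑ i, δ' i)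

/-- the constant `K` -/
noncomputable def KK (α β : Type) [Fintype α] [Fintype β] : ℝ :=
  2 ^ (Fintype.card α + Fintype.card β) / √(min (Fintype.card α : ℝ) (Fintype.card β) + 1)

lemma KK_left : (2 : ℝ) ^ Fintype.card α * ((Fintype.card β).choose (Fintype.card β / 2) : ℕ) ≤ KK α β := by
  unfold KK
  rw [pow_add, mul_div_assoc]
  apply mul_le_mul_of_nonneg_left _ (by positivity)
  refine (choose_half_real _).trans ?_
  apply div_le_div_of_nonneg_left (by positivity) (Real.sqrt_pos.2 (by positivity))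
  apply Real.sqrt_le_sqrt
  have := min_le_right (Fintype.card α : ℝ) (Fintype.card β)
  linarith

lemma KK_right : (2 : ℝ) ^ Fintype.card β * ((Fintype.card α).choose (Fintype.card α / 2) : ℕ) ≤ KK α β := by
  unfold KK
  rw [add_comm (Fintype.card α), pow_add, mul_div_assoc]
  apply mul_le_mul_of_nonneg_left _ (by positivity)
  refine (choose_half_real _).trans ?_
  apply div_le_div_of_nonneg_left (by positivity) (Real.sqrt_pos.2 (by positivity))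
  apply Real.sqrt_le_sqrt
  have := min_le_left (Fintype.card α : ℝ) (Fintype.card β)
  linarith

lemma KK_nonneg : 0 ≤ KK α β := by unfold KK; positivity

lemma card_Wn (δ : α → ℤ) (δ' : β → ℤ) {L : ℕ} (hδ' : ∀ i, (L : ℤ) ≤ δ' i) (c : ℤ) :
    ((Wn δ δ' L c).card : ℝ) ≤ KK α β := by
  have h1 := sum_Wn_left δ δ' hδ' c (fun _ => 1) (fun _ => zero_le_one)
  simp only [sum_const, nsmul_eq_mul, mul_one, card_univ, Fintype.card_finset] at h1
  push_cast at h1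
  exact h1.trans KK_left

lemma weight_Wn (δ : α → ℤ) (δ' : β → ℤ) {L : ℕ} {Δ : ℝ} (hδ : ∀ i, (L : ℤ) ≤ δ i) (hδ' : ∀ i, (L : ℤ) ≤ δ' i)
    (hΔ : ∀ i, |(δ i : ℝ)| ≤ Δ) (hΔ' : ∀ i, |(δ' i : ℝ)| ≤ Δ) (c : ℤ) :
    ∑ p ∈ Wn δ δ' L c, ((Dv δ δ' p : ℤ) : ℝ) ^ 2 ≤
      2 * ((Fintype.card α + Fintype.card β : ℝ) * Δ ^ 2) * KK α β := by
  have h1 := sum_Wn_left δ δ' hδ' c (fun A => ((2 * ∑ i ∈ A, δ i - ∑ i, δ i : ℤ) : ℝ) ^ 2) (fun _ => sq_nonneg _)
  have h2 := sum_Wn_right δ δ' hδ c (fun A => ((2 * ∑ i ∈ A, δ' i - ∑ i, δ' i : ℤ) : ℝ) ^ 2) (fun _ => sq_nonneg _)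
  have h3 : ∑ A : Finset α, (((2 * ∑ i ∈ A, δ i - ∑ i, δ i : ℤ) : ℝ)) ^ 2 ≤
      2 ^ Fintype.card α * ((Fintype.card α : ℝ) * Δ ^ 2) := by
    have h4 := congrArg (Int.cast (R := ℝ)) (variance_univ δ)
    rw [Int.cast_sum] at h4
    simp only [Int.cast_pow] at h4
    rw [h4]
    push_cast
    apply mul_le_mul_of_nonneg_left _ (by positivity)
    have h5 : ∑ i : α, (δ i : ℝ) ^ 2 ≤ ∑ _i : α, Δ ^ 2 := by
      refine sum_le_sum fun i _ => ?_
      rw [← sq_abs]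
      exact pow_le_pow_left₀ (abs_nonneg _) (hΔ i) 2
    rw [sum_const, nsmul_eq_mul, card_univ] at h5
    exact h5
  have h3' : ∑ A : Finset β, (((2 * ∑ i ∈ A, δ' i - ∑ i, δ' i : ℤ) : ℝ)) ^ 2 ≤
      2 ^ Fintype.card β * ((Fintype.card β : ℝ) * Δ ^ 2) := by
    have h4 := congrArg (Int.cast (R := ℝ)) (variance_univ δ')
    rw [Int.cast_sum] at h4
    simp only [Int.cast_pow] at h4
    rw [h4]
    push_cast
    apply mul_le_mul_of_nonneg_left _ (by positivity)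
    have h5 : ∑ i : β, (δ' i : ℝ) ^ 2 ≤ ∑ _i : β, Δ ^ 2 := by
      refine sum_le_sum fun i _ => ?_
      rw [← sq_abs]
      exact pow_le_pow_left₀ (abs_nonneg _) (hΔ' i) 2
    rw [sum_const, nsmul_eq_mul, card_univ] at h5
    exact h5
  have hch1 : (0 : ℝ) ≤ ((Fintype.card β).choose (Fintype.card β / 2) : ℕ) := Nat.cast_nonneg _
  have hch2 : (0 : ℝ) ≤ ((Fintype.card α).choose (Fintype.card α / 2) : ℕ) := Nat.cast_nonneg _
  have h6 : ∑ p ∈ Wn δ δ' L c, (((2 * ∑ i ∈ p.1, δ i - ∑ i, δ i : ℤ) : ℝ)) ^ 2 ≤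
      ((Fintype.card α : ℝ) * Δ ^ 2) * KK α β := by
    calc _ ≤ _ := h1
      _ ≤ (2 ^ Fintype.card α * ((Fintype.card α : ℝ) * Δ ^ 2)) *
          ((Fintype.card β).choose (Fintype.card β / 2) : ℕ) := mul_le_mul_of_nonneg_right h3 hch1
      _ = ((Fintype.card α : ℝ) * Δ ^ 2) * (2 ^ Fintype.card α *
          ((Fintype.card β).choose (Fintype.card β / 2) : ℕ)) := by ring
      _ ≤ _ := mul_le_mul_of_nonneg_left KK_left (by positivity)
  have h6' : ∑ p ∈ Wn δ δ' L c, (((2 * ∑ i ∈ p.2, δ' i - ∑ i, δ' i : ℤ) : ℝ)) ^ 2 ≤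
      ((Fintype.card β : ℝ) * Δ ^ 2) * KK α β := by
    calc _ ≤ _ := h2
      _ ≤ (2 ^ Fintype.card β * ((Fintype.card β : ℝ) * Δ ^ 2)) *
          ((Fintype.card α).choose (Fintype.card α / 2) : ℕ) := mul_le_mul_of_nonneg_right h3' hch2
      _ = ((Fintype.card β : ℝ) * Δ ^ 2) * (2 ^ Fintype.card β *
          ((Fintype.card α).choose (Fintype.card α / 2) : ℕ)) := by ring
      _ ≤ _ := mul_le_mul_of_nonneg_left KK_right (by positivity)
  have h7 : ∑ p ∈ Wn δ δ' L c, ((Dv δ δ' p : ℤ) : ℝ) ^ 2 ≤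
      ∑ p ∈ Wn δ δ' L c, (2 * (((2 * ∑ i ∈ p.1, δ i - ∑ i, δ i : ℤ) : ℝ)) ^ 2 +
        2 * (((2 * ∑ i ∈ p.2, δ' i - ∑ i, δ' i : ℤ) : ℝ)) ^ 2) := by
    refine sum_le_sum fun p _ => ?_
    have e : ((Dv δ δ' p : ℤ) : ℝ) = ((2 * ∑ i ∈ p.1, δ i - ∑ i, δ i : ℤ) : ℝ) +
        ((2 * ∑ i ∈ p.2, δ' i - ∑ i, δ' i : ℤ) : ℝ) := by
      unfold Dv S2
      push_cast
      ring
    rw [e]
    nlinarith [sq_nonneg ((((2 * ∑ i ∈ p.1, δ i - ∑ i, δ i : ℤ) : ℝ)) -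
      ((2 * ∑ i ∈ p.2, δ' i - ∑ i, δ' i : ℤ) : ℝ))]
  rw [sum_add_distrib, ← mul_sum, ← mul_sum] at h7
  linarith

/-- an interval at distance from the mean -/
lemma card_far (δ : α → ℤ) (δ' : β → ℤ) {L : ℕ} {Δ : ℝ} (hδ : ∀ i, (L : ℤ) ≤ δ i) (hδ' : ∀ i, (L : ℤ) ≤ δ' i)
    (hΔ : ∀ i, |(δ i : ℝ)| ≤ Δ) (hΔ' : ∀ i, |(δ' i : ℝ)| ≤ Δ) (c : ℤ) {g : ℝ} (hg : 0 < g) (i : ℕ)
    (Q : Finset (Finset α × Finset β)) (hQ : Q ⊆ Wn δ δ' L c)
    (hfar : ∀ p ∈ Q, g * i ≤ |((Dv δ δ' p : ℤ) : ℝ)|) :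
    (Q.card : ℝ) ≤ KK α β * (1 + 2 * ((Fintype.card α + Fintype.card β : ℝ) * Δ ^ 2) / g ^ 2) *
      (4 / ((i : ℝ) + 1) ^ 2) := by
  have hK := KK_nonneg (α := α) (β := β)
  set V : ℝ := 2 * ((Fintype.card α + Fintype.card β : ℝ) * Δ ^ 2) with hV
  have hV0 : 0 ≤ V := by positivity
  have h1 : (Q.card : ℝ) ≤ KK α β := le_trans (by exact_mod_cast card_le_card hQ) (card_Wn δ δ' hδ' c)
  have h2 : (Q.card : ℝ) * (g * i) ^ 2 ≤ V * KK α β := by
    refine le_trans ?_ (weight_Wn δ δ' hδ hδ' hΔ hΔ' c)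
    calc (Q.card : ℝ) * (g * i) ^ 2 = ∑ _p ∈ Q, (g * i) ^ 2 := by rw [sum_const, nsmul_eq_mul]
      _ ≤ ∑ p ∈ Q, ((Dv δ δ' p : ℤ) : ℝ) ^ 2 := by
          refine sum_le_sum fun p hp => ?_
          rw [← sq_abs ((Dv δ δ' p : ℤ) : ℝ)]
          exact pow_le_pow_left₀ (by positivity) (hfar p hp) 2
      _ ≤ _ := sum_le_sum_of_subset_of_nonneg hQ fun _ _ _ => sq_nonneg _
  have h3 : (Q.card : ℝ) * (i : ℝ) ^ 2 ≤ KK α β * (V / g ^ 2) := by
    rw [mul_div_assoc', le_div_iff₀ (by positivity)]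
    nlinarith
  have h4 : (Q.card : ℝ) * (1 + (i : ℝ) ^ 2) ≤ KK α β * (1 + V / g ^ 2) := by nlinarith
  have hi0 : (0 : ℝ) ≤ i := Nat.cast_nonneg i
  have h5 : ((i : ℝ) + 1) ^ 2 ≤ 4 * (1 + (i : ℝ) ^ 2) := by nlinarith [sq_nonneg ((i : ℝ) - 1)]
  have hQ0 : (0 : ℝ) ≤ Q.card := Nat.cast_nonneg _
  rw [mul_div_assoc', le_div_iff₀ (by positivity)]
  nlinarith [mul_le_mul_of_nonneg_left h5 hQ0]

end

lemma sum_inv_sq (N : ℕ) : ∑ i ∈ range N, (1 : ℝ) / ((i : ℝ) + 1) ^ 2 ≤ 2 := by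
  have h : ∀ N : ℕ, ∑ i ∈ range (N + 1), (1 : ℝ) / ((i : ℝ) + 1) ^ 2 ≤ 2 - 1 / ((N : ℝ) + 1) := by
    intro N
    induction N with
    | zero => norm_num
    | succ N ih =>
      rw [sum_range_succ]
      have h1 : (0 : ℝ) < (N : ℝ) + 1 := by positivity
      have h2 : (0 : ℝ) < (N : ℝ) + 2 := by positivity
      have h3 : (1 : ℝ) / (((N + 1 : ℕ) : ℝ) + 1) ^ 2 ≤ 1 / ((N : ℝ) + 1) - 1 / (((N + 1 : ℕ) : ℝ) + 1) := by
        push_cast
        have e : (N : ℝ) + 1 + 1 = N + 2 := by ring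
        rw [e, div_sub_div _ _ h1.ne' h2.ne', div_le_div_iff₀ (by positivity) (by positivity)]
        nlinarith
      linarith
  rcases Nat.eq_zero_or_pos N with h0 | h0
  · rw [h0]
    simp
  · obtain ⟨M, rfl⟩ : ∃ M, N = M + 1 := ⟨N - 1, by omega⟩
    refine (h M).trans ?_
    have : (0 : ℝ) ≤ 1 / ((M : ℝ) + 1) := by positivity
    linarith

end Pool.Agent.Zk91.RG
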