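import Pool.Agent.Zk91.RG.Count2
import Pool.Agent.TH648.EN.Smooth

set_option autoImplicit false

/-!
# Almost all numbers of points: all degrees for all multiplicities up to almost the square root
-/

namespace Pool.Agent.Zk91.RG

open Finset MvPolynomial Pool.Agent.H248R5

/-- For `n` general points `P` (outside one hypersurface defined over the rationals), ALL `m` with `1 ≤ m ≤ M` and EVERY
degree `d`: `|d H - m ∑ E i|` is nonspecial; if it is not empty, its general member is smooth; and if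
`n * (m + 1).choose 2 < (d + 2).choose 2`, then every `|d H - ∑ w i E i|` with all `w i ≤ m` is nonspecial, of the dimension
of independent conditions, and has a smooth general member. -/
def SmoothUpTo (n M : ℕ) : Prop :=
  ∃ F : MvPolynomial (Fin n × Fin 2) ℚ, F ≠ 0 ∧ ∀ P : Fin n → Fin 2 → ℂ,
    MvPolynomial.aeval (fun ij : Fin n × Fin 2 => P ij.1 ij.2) F ≠ 0 →
      ∀ m : ℕ, 1 ≤ m → m ≤ M → ∀ d : ℕ,
        Module.finrank ℂ ↥(forms (fun _ => m) P d) = (d + 2).choose 2 - n * (m + 1).choose 2 ∧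
        (forms (fun _ => m) P d ≠ ⊥ →
          GeneralMember (forms (fun _ => m) P d) (SmoothMember (fun _ => m) P)) ∧
        (n * (m + 1).choose 2 < (d + 2).choose 2 → ∀ w : Fin n → ℕ, (∀ i, w i ≤ m) →
          Module.finrank ℂ ↥(forms w P d) + ∑ i, (w i + 1).choose 2 = (d + 2).choose 2 ∧
            GeneralMember (forms w P d) (SmoothMember w P))

theorem SmoothUpTo.mono {n M M' : ℕ} (h : M' ≤ M) (hM : SmoothUpTo n M) : SmoothUpTo n M' := by
  obtain ⟨F, hF, hF'⟩ := hM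
  exact ⟨F, hF, fun P hP m hm hm' d => hF' P hP m hm (hm'.trans h) d⟩

/-- The same for one multiplicity `m`. -/
def SmoothAt (n m : ℕ) : Prop :=
  ∃ F : MvPolynomial (Fin n × Fin 2) ℚ, F ≠ 0 ∧ ∀ P : Fin n → Fin 2 → ℂ,
    MvPolynomial.aeval (fun ij : Fin n × Fin 2 => P ij.1 ij.2) F ≠ 0 → ∀ d : ℕ,
        Module.finrank ℂ ↥(forms (fun _ => m) P d) = (d + 2).choose 2 - n * (m + 1).choose 2 ∧
        (forms (fun _ => m) P d ≠ ⊥ →
          GeneralMember (forms (fun _ => m) P d) (SmoothMember (fun _ => m) P)) ∧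
        (n * (m + 1).choose 2 < (d + 2).choose 2 → ∀ w : Fin n → ℕ, (∀ i, w i ≤ m) →
          Module.finrank ℂ ↥(forms w P d) + ∑ i, (w i + 1).choose 2 = (d + 2).choose 2 ∧
            GeneralMember (forms w P d) (SmoothMember w P))

lemma choose_two (a : ℕ) : 2 * (a + 1).choose 2 = a * (a + 1) := by
  rw [Nat.choose_two_right, Nat.add_sub_cancel, mul_comm (a + 1) a]
  exact Nat.mul_div_cancel' (Nat.even_mul_succ_self a).two_dvd

lemma good_key {n m : ℕ} (hn : 37 ≤ n) (h : ¬ Bad m n) : ∃ F : MvPolynomial (Fin n × Fin 2) ℚ, F ≠ 0 ∧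
    ∀ P : Fin n → Fin 2 → ℂ, MvPolynomial.aeval (fun ij : Fin n × Fin 2 => P ij.1 ij.2) F ≠ 0 → 1 ≤ m → ∀ d : ℕ,
        Module.finrank ℂ ↥(forms (fun _ => m) P d) = (d + 2).choose 2 - n * (m + 1).choose 2 ∧
        (forms (fun _ => m) P d ≠ ⊥ →
          GeneralMember (forms (fun _ => m) P d) (SmoothMember (fun _ => m) P)) ∧
        (n * (m + 1).choose 2 < (d + 2).choose 2 → ∀ w : Fin n → ℕ, (∀ i, w i ≤ m) →
          Module.finrank ℂ ↥(forms w P d) + ∑ i, (w i + 1).choose 2 = (d + 2).choose 2 ∧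
            GeneralMember (forms w P d) (SmoothMember w P)) := by
    rcases Nat.eq_zero_or_pos m with hm0 | hm0
    · exact ⟨1, one_ne_zero, fun P _ hm => by omega⟩
    obtain ⟨F, hF, hF'⟩ := Pool.Agent.TH648.EN.smooth37 (K := ℂ) hn hm0
    refine ⟨F, hF, fun P hP hm d => ?_⟩
    obtain ⟨h1, h2⟩ := hF' P hP
    have gap : n * (m + 1).choose 2 < (d + 2).choose 2 → n * (m + 1).choose 2 + m < (d + 2).choose 2 := by
      intro h3
      by_contra hcon
      push Not at hcon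
      apply h
      refine ⟨d + 1, ?_, ?_⟩
      · have e1 := choose_two m
        have e2 : 2 * (d + 2).choose 2 = (d + 1) * (d + 1 + 1) := choose_two (d + 1)
        rw [← e1, ← e2]
        have : n * (2 * (m + 1).choose 2) = 2 * (n * (m + 1).choose 2) := by ring
        omega
      · have e1 := choose_two m
        have e2 : 2 * (d + 2).choose 2 = (d + 1) * (d + 1 + 1) := choose_two (d + 1)
        rw [← e1, ← e2]
        have : n * (2 * (m + 1).choose 2) = 2 * (n * (m + 1).choose 2) := by ring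
        omega
    refine ⟨h1 d, fun hne => ?_, fun h3 w hw => h2 w hw d (gap h3)⟩
    have h3 : n * (m + 1).choose 2 < (d + 2).choose 2 := by
      by_contra hcon
      apply hne
      have hfin := Pool.Agent.H248R6.forms_finite (fun _ : Fin n => m) P d
      refine Submodule.finrank_eq_zero.1 ?_
      rw [h1 d]
      omega
    exact (h2 (fun _ => m) (fun _ => le_rfl) d (gap h3)).2

lemma good_of {n M : ℕ} (hn : 37 ≤ n) (h : ¬ BadM M n) : SmoothUpTo n M := by
  classical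
  have key : ∀ m : ℕ, ∃ F : MvPolynomial (Fin n × Fin 2) ℚ, F ≠ 0 ∧ ∀ P : Fin n → Fin 2 → ℂ,
      MvPolynomial.aeval (fun ij : Fin n × Fin 2 => P ij.1 ij.2) F ≠ 0 → 1 ≤ m → m ≤ M → ∀ d : ℕ,
        Module.finrank ℂ ↥(forms (fun _ => m) P d) = (d + 2).choose 2 - n * (m + 1).choose 2 ∧
        (forms (fun _ => m) P d ≠ ⊥ →
          GeneralMember (forms (fun _ => m) P d) (SmoothMember (fun _ => m) P)) ∧
        (n * (m + 1).choose 2 < (d + 2).choose 2 → ∀ w : Fin n → ℕ, (∀ i, w i ≤ m) →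
          Module.finrank ℂ ↥(forms w P d) + ∑ i, (w i + 1).choose 2 = (d + 2).choose 2 ∧
            GeneralMember (forms w P d) (SmoothMember w P)) := by
    intro m
    by_cases hm : m ∈ Finset.Ioc 0 M
    · obtain ⟨F, hF, hF'⟩ := good_key (m := m) hn (fun hb => h ⟨m, hm, hb⟩)
      exact ⟨F, hF, fun P hP h1 _ => hF' P hP h1⟩
    · exact ⟨1, one_ne_zero, fun P _ h1 h2 => absurd (Finset.mem_Ioc.2 ⟨h1, h2⟩) hm⟩
  choose F hF hF' using key
  refine ⟨∏ m ∈ Finset.Ioc 0 M, F m, Finset.prod_ne_zero_iff.2 fun m _ => hF m, fun P hP m hm hmM d => ?_⟩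
  rw [map_prod, Finset.prod_ne_zero_iff] at hP
  exact hF' m P (hP m (Finset.mem_Ioc.2 ⟨hm, hmM⟩)) hm hmM d

open scoped Classical in
/-- the number of the exceptional `n` -/
theorem exc (N M : ℕ) (hM : 1 ≤ M) (hMN : M * M ≤ N) :
    (((range (N + 1)).filter fun n => ¬ SmoothUpTo n M).card : ℝ) ≤
      60 * √(N : ℝ) * M * (1 + Real.log N) + 37 := by
  have h1 : ((range (N + 1)).filter fun n => ¬ SmoothUpTo n M) ⊆
      ((range (N + 1)).filter fun n => BadM M n) ∪ range 37 := by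
    intro n hn
    rw [mem_filter] at hn
    rw [mem_union]
    by_cases hb : BadM M n
    · exact Or.inl (mem_filter.2 ⟨hn.1, hb⟩)
    · right
      rw [mem_range]
      by_contra hcon
      exact hn.2 (good_of (by omega) hb)
  have h2 := (card_le_card h1).trans (card_union_le _ _)
  rw [card_range] at h2
  have h3 := count N M hM hMN
  have h4 : (((range (N + 1)).filter fun n => ¬ SmoothUpTo n M).card : ℝ) ≤
      (((range (N + 1)).filter fun n => BadM M n).card : ℝ) + 37 := by exact_mod_cast h2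
  linarith

open scoped Classical in
/-- the number of the exceptional `n` for one `m` -/
theorem exc_one (N m : ℕ) (hm : 1 ≤ m) (hmN : m * m ≤ N) :
    (((range (N + 1)).filter fun n => ¬ SmoothAt n m).card : ℝ) ≤
      12 * √(N : ℝ) * ((tau m : ℝ) + tau (m + 1)) + 37 := by
  have h1 : ((range (N + 1)).filter fun n => ¬ SmoothAt n m) ⊆
      ((range (N + 1)).filter fun n => Bad m n) ∪ range 37 := by
    intro n hn
    rw [mem_filter] at hn
    rw [mem_union]
    by_cases hb : Bad m n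
    · exact Or.inl (mem_filter.2 ⟨hn.1, hb⟩)
    · right
      rw [mem_range]
      by_contra hcon
      obtain ⟨F, hF, hF'⟩ := good_key (m := m) (by omega : 37 ≤ n) hb
      exact hn.2 ⟨F, hF, fun P hP => hF' P hP hm⟩
  have h2 := (card_le_card h1).trans (card_union_le _ _)
  rw [card_range] at h2
  have h3 := count_one N m hm hmN
  have h4 : (((range (N + 1)).filter fun n => ¬ SmoothAt n m).card : ℝ) ≤
      (((range (N + 1)).filter fun n => Bad m n).card : ℝ) + 37 := by exact_mod_cast h2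
  linarith

/-- the exceptional set for multiplicities up to `n ^ δ` -/
def Exc (δ : ℝ) : Set ℕ := {n | ¬ SmoothUpTo n ⌊(n : ℝ) ^ δ⌋₊}

open scoped Classical in
theorem exc_pow {δ : ℝ} (hδ : 0 ≤ δ) (hδ2 : δ ≤ 1 / 2) (N : ℕ) (hN : 1 ≤ N) :
    (((range (N + 1)).filter fun n => n ∈ Exc δ).card : ℝ) ≤
      97 * (N : ℝ) ^ (1 / 2 + δ) * (1 + Real.log N) := by
  have hNR : (1 : ℝ) ≤ N := by exact_mod_cast hN
  set M : ℕ := ⌊(N : ℝ) ^ δ⌋₊ with hM
  have h1N : 1 ≤ (N : ℝ) ^ δ := Real.one_le_rpow hNR hδ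
  have hM1 : 1 ≤ M := Nat.le_floor (by exact_mod_cast h1N)
  have hMle : (M : ℝ) ≤ (N : ℝ) ^ δ := Nat.floor_le (by linarith)
  have hMN : M * M ≤ N := by
    have h2 : (N : ℝ) ^ δ ≤ (N : ℝ) ^ (1 / 2 : ℝ) := Real.rpow_le_rpow_of_exponent_le hNR hδ2
    have h3 : (N : ℝ) ^ (1 / 2 : ℝ) * (N : ℝ) ^ (1 / 2 : ℝ) = N := by
      rw [← Real.rpow_add (by linarith)]
      norm_num
    have h4 : (M : ℝ) * M ≤ N := by
      calc (M : ℝ) * M ≤ (N : ℝ) ^ (1 / 2 : ℝ) * (N : ℝ) ^ (1 / 2 : ℝ) :=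
            mul_le_mul (hMle.trans h2) (hMle.trans h2) (Nat.cast_nonneg _) (by positivity)
        _ = N := h3
    exact_mod_cast h4
  have h2 : ((range (N + 1)).filter fun n => n ∈ Exc δ) ⊆
      ((range (N + 1)).filter fun n => ¬ SmoothUpTo n M) := by
    intro n hn
    rw [mem_filter, mem_range] at hn ⊢
    refine ⟨hn.1, fun h => hn.2 (h.mono ?_)⟩
    apply Nat.floor_mono
    exact Real.rpow_le_rpow (Nat.cast_nonneg _) (by exact_mod_cast (by omega : n ≤ N)) hδ
  have h3 := exc N M hM1 hMN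
  have hlog : 0 ≤ Real.log N := Real.log_nonneg hNR
  have h4 : (((range (N + 1)).filter fun n => n ∈ Exc δ).card : ℝ) ≤
      (((range (N + 1)).filter fun n => ¬ SmoothUpTo n M).card : ℝ) := by
    exact_mod_cast card_le_card h2
  have h5 : √(N : ℝ) * M ≤ (N : ℝ) ^ (1 / 2 + δ) := by
    rw [Real.rpow_add (by linarith), ← Real.sqrt_eq_rpow]
    exact mul_le_mul_of_nonneg_left hMle (Real.sqrt_nonneg _)
  have h6 : 1 ≤ (N : ℝ) ^ (1 / 2 + δ) := Real.one_le_rpow hNR (by linarith)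
  have h7 : 1 ≤ (N : ℝ) ^ (1 / 2 + δ) * (1 + Real.log N) := by nlinarith
  calc _ ≤ _ := h4
    _ ≤ 60 * √(N : ℝ) * M * (1 + Real.log N) + 37 := h3
    _ = 60 * ((√(N : ℝ) * M) * (1 + Real.log N)) + 37 := by ring
    _ ≤ 60 * ((N : ℝ) ^ (1 / 2 + δ) * (1 + Real.log N)) + 37 * ((N : ℝ) ^ (1 / 2 + δ) * (1 + Real.log N)) := by
        have := mul_le_mul_of_nonneg_right h5 (show 0 ≤ 1 + Real.log N by linarith)
        linarith
    _ = _ := by ring

open Classical in
/-- the form used by the library on windows -/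
theorem exc_count {δ : ℝ} (hδ : 0 ≤ δ) (hδ2 : δ ≤ 1 / 2) : ∀ ε : ℝ, 0 < ε → ∃ C : ℝ, ∀ X : ℕ, 1 ≤ X →
    (((Ioc 0 X).filter (fun t => t ∈ Exc δ)).card : ℝ) ≤ C * (X : ℝ) ^ ((1 / 2 + δ) + ε) := by
  intro ε hε
  refine ⟨97 * (1 + 1 / ε), fun X hX => ?_⟩
  have hXR : (1 : ℝ) ≤ X := by exact_mod_cast hX
  have h1 : ((Ioc 0 X).filter (fun t => t ∈ Exc δ)) ⊆ ((range (X + 1)).filter fun n => n ∈ Exc δ) := by
    intro t ht
    rw [mem_filter, mem_Ioc] at ht
    rw [mem_filter, mem_range]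
    exact ⟨by omega, ht.2⟩
  have h2 := exc_pow hδ hδ2 X hX
  have h3 : (((Ioc 0 X).filter (fun t => t ∈ Exc δ)).card : ℝ) ≤
      (((range (X + 1)).filter fun n => n ∈ Exc δ).card : ℝ) := by
    exact_mod_cast card_le_card h1
  have h4 : Real.log X ≤ (X : ℝ) ^ ε / ε := Real.log_le_rpow_div (by linarith) hε
  have h5 : 1 ≤ (X : ℝ) ^ ε := Real.one_le_rpow hXR hε.le
  have h6 : 1 + Real.log X ≤ (1 + 1 / ε) * (X : ℝ) ^ ε := by
    have : (1 + 1 / ε) * (X : ℝ) ^ ε = (X : ℝ) ^ ε + (X : ℝ) ^ ε / ε := by ring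
    rw [this]
    linarith
  have h7 : 0 ≤ (X : ℝ) ^ (1 / 2 + δ) := by positivity
  calc _ ≤ _ := h3
    _ ≤ 97 * (X : ℝ) ^ (1 / 2 + δ) * (1 + Real.log X) := h2
    _ ≤ 97 * (X : ℝ) ^ (1 / 2 + δ) * ((1 + 1 / ε) * (X : ℝ) ^ ε) :=
        mul_le_mul_of_nonneg_left h6 (by positivity)
    _ = 97 * (1 + 1 / ε) * ((X : ℝ) ^ (1 / 2 + δ) * (X : ℝ) ^ ε) := by ring
    _ = _ := by rw [← Real.rpow_add (by linarith)]

end Pool.Agent.Zk91.RG
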