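import Pool.Agent.Zk91.RG.Lo

set_option autoImplicit false
set_option linter.unusedSectionVars false

/-!
# Subset sums shortly below the numbers `(d + 2).choose 2`
-/

namespace Pool.Agent.Zk91.RG

open Finset

/-- the numbers `(d + 2).choose 2` -/
def T (d : ℕ) : ℤ := ((d + 2).choose 2 : ℕ)

lemma T_succ (d : ℕ) : T (d + 1) = T d + (d + 2) := by
  unfold T
  have : (d + 1 + 2).choose 2 = (d + 2).choose 2 + (d + 2) := by
    rw [show d + 1 + 2 = (d + 2) + 1 from rfl, Nat.choose_succ_succ' (d + 2) 1, Nat.choose_one_right, add_comm]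
  rw [this]
  push_cast
  ring

lemma T_mono {d e : ℕ} (h : d ≤ e) : T d ≤ T e := by
  unfold T
  exact_mod_cast Nat.choose_le_choose 2 (by omega)

lemma T_ge (d : ℕ) : (d : ℤ) + 1 ≤ T d := by
  induction d with
  | zero => unfold T; decide
  | succ d ih =>
    rw [T_succ]
    push_cast
    have : (0 : ℤ) ≤ d := Int.natCast_nonneg d
    linarith

/-- `T e - T d ≥ g (e - d)` -/
lemma T_gap {g : ℝ} {Smin : ℤ} (hg : ∀ d, Smin ≤ T d → g ≤ (d : ℝ) + 2) {d e : ℕ} (h : d ≤ e) (hd : Smin ≤ T d) :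
    g * ((e : ℝ) - d) ≤ (T e : ℝ) - T d := by
  obtain ⟨k, rfl⟩ := Nat.exists_eq_add_of_le h
  clear h
  induction k with
  | zero => simp
  | succ k ih =>
    have h1 := hg (d + k) (hd.trans (T_mono (by omega)))
    have h2 := T_succ (d + k)
    rw [show d + (k + 1) = (d + k) + 1 from rfl, h2]
    push_cast at ih h1 ⊢
    linarith

section
variable {α β : Type} [Fintype α] [DecidableEq α] [Fintype β] [DecidableEq β]

/-- the sum is in `[T d - M, T d)` for some `d` -/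
def BadP (δ : α → ℤ) (δ' : β → ℤ) (b : ℤ) (M : ℕ) (p : Finset α × Finset β) : Prop :=
  ∃ d : ℕ, T d - M ≤ b + S2 δ δ' p ∧ b + S2 δ δ' p < T d

/-- a piece -/
def Pc (δ : α → ℤ) (δ' : β → ℤ) (L : ℕ) (b : ℤ) (M : ℕ) (d t : ℕ) : Finset (Finset α × Finset β) :=
  (Wn δ δ' L (T d - M + t * L - b)).filter fun p => b + S2 δ δ' p < T d

lemma sum_classes (d₀ B : ℕ) (f : ℕ → ℝ) (i : ℕ → ℕ) (hi1 : ∀ d, d₀ ≤ d → i d = d - d₀)
    (hi2 : ∀ d, d < d₀ → i d = d₀ - 1 - d) (hf : ∀ j, 0 ≤ f j) (C : ℝ) (hC : ∀ N, ∑ j ∈ range N, f j ≤ C) :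
    ∑ d ∈ range B, f (i d) ≤ 2 * C := by
  have h1 : ∑ d ∈ range B, f (i d) ≤ ∑ d ∈ range (d₀ + B), f (i d) :=
    sum_le_sum_of_subset_of_nonneg (range_mono (by omega)) fun _ _ _ => hf _
  rw [sum_range_add] at h1
  have h2 : ∑ x ∈ range B, f (i (d₀ + x)) ≤ C := by
    refine le_trans (le_of_eq ?_) (hC B)
    refine sum_congr rfl fun x _ => ?_
    rw [hi1 _ (Nat.le_add_right _ _), Nat.add_sub_cancel_left]
  have h3 : ∑ x ∈ range d₀, f (i x) ≤ C := by
    refine le_trans (le_of_eq ?_) (hC d₀)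
    rw [← sum_range_reflect (fun j => f j) d₀]
    refine sum_congr rfl fun x hx => ?_
    rw [hi2 x (mem_range.1 hx)]
  linarith

open scoped Classical in
/-- the number of the bad pairs of subsets -/
theorem two_point (δ : α → ℤ) (δ' : β → ℤ) {L M q : ℕ} {Δ g : ℝ} {b : ℤ} (hL : 1 ≤ L)
    (hδ : ∀ i, (L : ℤ) ≤ δ i) (hδ' : ∀ i, (L : ℤ) ≤ δ' i)
    (hΔ : ∀ i, |(δ i : ℝ)| ≤ Δ) (hΔ' : ∀ i, |(δ' i : ℝ)| ≤ Δ) (hMq : M ≤ q * L) (hg0 : 0 < g)
    (hMg : 2 * (M : ℝ) ≤ g) (hg : ∀ d, b ≤ T d → g ≤ (d : ℝ) + 2) :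
    (((univ : Finset (Finset α × Finset β)).filter fun p => BadP δ δ' b M p).card : ℝ) ≤
      16 * q * (KK α β * (1 + 2 * ((Fintype.card α + Fintype.card β : ℝ) * Δ ^ 2) / g ^ 2)) := by
  have hL0 : (0 : ℤ) < L := by exact_mod_cast hL
  have hS0 : ∀ p, 0 ≤ S2 δ δ' p := by
    intro p
    unfold S2
    have h1 : 0 ≤ ∑ i ∈ p.1, δ i := sum_nonneg fun i _ => hL0.le.trans (hδ i)
    have h2 : 0 ≤ ∑ i ∈ p.2, δ' i := sum_nonneg fun i _ => hL0.le.trans (hδ' i)
    linarith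
  set tot : ℤ := ∑ i, δ i + ∑ i, δ' i with htot
  have htot0 : 0 ≤ tot := by
    have h1 : 0 ≤ ∑ i, δ i := sum_nonneg fun i _ => hL0.le.trans (hδ i)
    have h2 : 0 ≤ ∑ i, δ' i := sum_nonneg fun i _ => hL0.le.trans (hδ' i)
    linarith
  have hS1 : ∀ p, S2 δ δ' p ≤ tot := by
    intro p
    unfold S2
    have h1 : ∑ i ∈ p.1, δ i ≤ ∑ i, δ i :=
      sum_le_sum_of_subset_of_nonneg (subset_univ _) fun i _ _ => hL0.le.trans (hδ i)
    have h2 : ∑ i ∈ p.2, δ' i ≤ ∑ i, δ' i :=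
      sum_le_sum_of_subset_of_nonneg (subset_univ _) fun i _ _ => hL0.le.trans (hδ' i)
    linarith
  -- the class of the mean
  have hex : ∃ d : ℕ, 2 * b + tot ≤ 2 * T d := by
    refine ⟨(2 * b + tot).toNat, ?_⟩
    have h1 := T_ge (2 * b + tot).toNat
    have h2 := Int.self_le_toNat (2 * b + tot)
    have h3 : (0 : ℤ) ≤ (2 * b + tot).toNat := Int.natCast_nonneg _
    linarith
  obtain ⟨d₀, hd₀, hmin⟩ : ∃ d₀ : ℕ, 2 * b + tot ≤ 2 * T d₀ ∧ ∀ d < d₀, 2 * T d < 2 * b + tot :=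
    ⟨Nat.find hex, Nat.find_spec hex, fun d hd => not_le.1 (Nat.find_min hex hd)⟩
  let i : ℕ → ℕ := fun d => if d₀ ≤ d then d - d₀ else d₀ - 1 - d
  have hi1 : ∀ d, d₀ ≤ d → i d = d - d₀ := fun d hd => if_pos hd
  have hi2 : ∀ d, d < d₀ → i d = d₀ - 1 - d := fun d hd => if_neg (by omega)
  set B : ℕ := (b + tot + M).toNat + 1 with hB
  -- the cover
  have hcov : ((univ : Finset (Finset α × Finset β)).filter fun p => BadP δ δ' b M p) ⊆
      (range B).biUnion fun d => (range q).biUnion fun t => Pc δ δ' L b M d t := by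
    intro p hp
    rw [mem_filter] at hp
    obtain ⟨_, d, h1, h2⟩ := hp
    rw [mem_biUnion]
    refine ⟨d, ?_, ?_⟩
    · rw [mem_range, hB, Nat.lt_succ_iff]
      have h3 := T_ge d
      have h4 := hS1 p
      have h5 : (d : ℤ) ≤ b + tot + M := by linarith
      have h6 : (d : ℤ) ≤ (b + tot + M).toNat := h5.trans (Int.self_le_toNat _)
      exact_mod_cast h6
    · rw [mem_biUnion]
      obtain ⟨u, hu⟩ := Int.eq_ofNat_of_zero_le (show 0 ≤ b + S2 δ δ' p - (T d - M) by linarith)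
      have huM : u < M := by
        have : (u : ℤ) < M := by
          have e : ((u : ℕ) : ℤ) = b + S2 δ δ' p - (T d - M) := hu.symm
          rw [e]
          linarith
        exact_mod_cast this
      refine ⟨u / L, ?_, ?_⟩
      · rw [mem_range]
        apply Nat.div_lt_of_lt_mul
        rw [mul_comm]
        omega
      · unfold Pc Wn
        rw [mem_filter, mem_filter]
        have h3 : L * (u / L) + u % L = u := Nat.div_add_mod u L
        have h4 : u % L < L := Nat.mod_lt _ hL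
        have h3' : (L : ℤ) * ((u / L : ℕ) : ℤ) + ((u % L : ℕ) : ℤ) = u := by exact_mod_cast h3
        have h4' : ((u % L : ℕ) : ℤ) < L := by exact_mod_cast h4
        have h5 : (0 : ℤ) ≤ ((u % L : ℕ) : ℤ) := Int.natCast_nonneg _
        have e : ((u : ℕ) : ℤ) = b + S2 δ δ' p - (T d - M) := hu.symm
        refine ⟨⟨mem_univ _, ?_, ?_⟩, h2⟩
        · nlinarith
        · nlinarith
  -- each piece
  set K : ℝ := KK α β * (1 + 2 * ((Fintype.card α + Fintype.card β : ℝ) * Δ ^ 2) / g ^ 2) with hK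
  have hK0 : 0 ≤ K := mul_nonneg KK_nonneg (by positivity)
  have hpiece : ∀ d ∈ range B, ∀ t ∈ range q, ((Pc δ δ' L b M d t).card : ℝ) ≤
      K * (4 / ((i d : ℝ) + 1) ^ 2) := by
    intro d _ t _
    rcases Finset.eq_empty_or_nonempty (Pc δ δ' L b M d t) with he | ⟨p₀, hp₀⟩
    · rw [he, card_empty, Nat.cast_zero]
      positivity
    refine card_far δ δ' hδ hδ' hΔ hΔ' (T d - M + t * L - b) hg0 (i d) _ (filter_subset _ _) ?_
    intro p hp
    unfold Pc Wn at hp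
    rw [mem_filter, mem_filter] at hp
    obtain ⟨⟨_, h1, h2⟩, h3⟩ := hp
    have hDv : ((Dv δ δ' p : ℤ) : ℝ) = 2 * ((b + S2 δ δ' p : ℤ) : ℝ) - ((2 * b + tot : ℤ) : ℝ) := by
      unfold Dv
      rw [← htot]
      push_cast
      ring
    rw [hDv]
    have hbT : b ≤ T d := by
      have := hS0 p
      linarith
    rcases le_or_gt d₀ d with hd | hd
    · rw [hi1 d hd]
      rcases Nat.eq_or_lt_of_le hd with h0 | h0
      · rw [← h0]
        simp
      · have h4 : b ≤ T d₀ := by linarith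
        have h5 := T_gap hg hd h4
        have h6 : ((2 * b + tot : ℤ) : ℝ) ≤ 2 * (T d₀ : ℝ) := by exact_mod_cast hd₀
        have h7 : (T d : ℝ) - M ≤ ((b + S2 δ δ' p : ℤ) : ℝ) := by
          have : T d - M ≤ b + S2 δ δ' p := by
            have h8 : (0 : ℤ) ≤ (t : ℤ) * L := by positivity
            linarith
          exact_mod_cast this
        have h8 : (1 : ℝ) ≤ (d : ℝ) - d₀ := by
          have : (d₀ : ℝ) + 1 ≤ d := by exact_mod_cast h0
          linarith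
        rw [Nat.cast_sub hd]
        refine le_trans ?_ (le_abs_self _)
        nlinarith
    · rw [hi2 d hd]
      have h5 := T_gap hg (show d ≤ d₀ - 1 by omega) hbT
      have h6 : 2 * (T (d₀ - 1) : ℝ) ≤ ((2 * b + tot : ℤ) : ℝ) := by
        exact_mod_cast (hmin (d₀ - 1) (by omega)).le
      have h7 : ((b + S2 δ δ' p : ℤ) : ℝ) ≤ T d := by exact_mod_cast h3.le
      have h8 : (0 : ℝ) ≤ ((d₀ - 1 : ℕ) : ℝ) - d := by
        have : (d : ℝ) ≤ ((d₀ - 1 : ℕ) : ℝ) := by exact_mod_cast (show d ≤ d₀ - 1 by omega)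
        linarith
      rw [Nat.cast_sub (show d ≤ d₀ - 1 by omega)]
      refine le_trans ?_ (neg_le_abs _)
      nlinarith
  have h1 : (((univ : Finset (Finset α × Finset β)).filter fun p => BadP δ δ' b M p).card : ℝ) ≤
      ∑ d ∈ range B, ∑ t ∈ range q, ((Pc δ δ' L b M d t).card : ℝ) := by
    have h2 := (card_le_card hcov).trans card_biUnion_le
    have h3 : ∑ d ∈ range B, ((range q).biUnion fun t => Pc δ δ' L b M d t).card ≤
        ∑ d ∈ range B, ∑ t ∈ range q, (Pc δ δ' L b M d t).card := sum_le_sum fun d _ => card_biUnion_le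
    exact_mod_cast h2.trans h3
  refine h1.trans ?_
  have h2 : ∑ d ∈ range B, ∑ t ∈ range q, ((Pc δ δ' L b M d t).card : ℝ) ≤
      ∑ d ∈ range B, (q * K * 4) * (1 / ((i d : ℝ) + 1) ^ 2) := by
    refine sum_le_sum fun d hd => ?_
    refine (sum_le_sum fun t ht => hpiece d hd t ht).trans (le_of_eq ?_)
    rw [sum_const, card_range, nsmul_eq_mul]
    ring
  refine h2.trans ?_
  rw [← mul_sum]
  have h3 := sum_classes d₀ B (fun j => 1 / ((j : ℝ) + 1) ^ 2) i hi1 hi2 (fun j => by positivity) 2 sum_inv_sq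
  calc (q * K * 4) * ∑ d ∈ range B, 1 / ((i d : ℝ) + 1) ^ 2 ≤ (q * K * 4) * (2 * 2) :=
        mul_le_mul_of_nonneg_left h3 (by positivity)
    _ = 16 * q * K := by ring

end

end Pool.Agent.Zk91.RG
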