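import Pool.Agent.Zk91.RG.Two

set_option autoImplicit false
set_option linter.unusedSectionVars false

/-!
# Vectors with entries in product sets
-/

namespace Pool.Agent.Zk91.RG

open Finset

/-- the number `(a + 1).choose 2` -/
def tr (a : ℕ) : ℤ := ((a + 1).choose 2 : ℕ)

lemma tr_two (a : ℕ) : 2 * tr a = a * (a + 1) := by
  unfold tr
  have h : 2 * (a + 1).choose 2 = a * (a + 1) := by
    rw [Nat.choose_two_right, Nat.add_sub_cancel, mul_comm (a + 1) a]
    exact Nat.mul_div_cancel' (Nat.even_mul_succ_self a).two_dvd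
  exact_mod_cast h

lemma T_two (d : ℕ) : 2 * T d = (d + 1) * (d + 2) := by
  have h := tr_two (d + 1)
  unfold tr at h
  unfold T
  push_cast at h ⊢
  linarith

/-- `∑ (v i + 1).choose 2` is in `[T d - M, T d)` for some `d` -/
def BadV {ι : Type} [Fintype ι] (M : ℕ) (v : ι → ℕ) : Prop :=
  ∃ d : ℕ, T d - M ≤ ∑ i, tr (v i) ∧ ∑ i, tr (v i) < T d

/-- the vector with the entries `y i` for `ε i = true` and `x i` otherwise -/
def mix {ι : Type} (x y : ι → ℕ) (ε : ι → Bool) (i : ι) : ℕ := if ε i then y i else x i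

lemma bool_aux (X Y : ℕ) (h : X ≠ Y) (a c : Bool)
    (h3 : ((if a then Y else X) = max X Y ↔ (if c then Y else X) = max X Y)) : a = c := by
  cases a <;> cases c <;> simp at h3 ⊢ <;> omega

section
variable {α β : Type} [Fintype α] [DecidableEq α] [Fintype β] [DecidableEq β]

open scoped Classical in
/-- two values for every coordinate -/
theorem two_val {m s : ℕ} (hm : 1 ≤ m) (hs : 1 ≤ s) (x y : α ⊕ β → ℕ) (hne : ∀ i, x i ≠ y i)
    (hx : ∀ i, m ≤ x i ∧ x i ≤ m + s) (hy : ∀ i, m ≤ y i ∧ y i ≤ m + s) {n : ℕ}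
    (hn : Fintype.card α + Fintype.card β = n) (h1 : 1000 * ((s : ℝ) + 2) ≤ √(n : ℝ)) :
    (((univ : Finset (α ⊕ β → Bool)).filter fun ε => BadV (m + s) (mix x y ε)).card : ℝ) ≤
      16 * s * (KK α β * (1 + (s : ℝ) ^ 2 * (s + 3) ^ 2 / 2)) := by
  have hmR : (1 : ℝ) ≤ m := by exact_mod_cast hm
  have hsR : (1 : ℝ) ≤ s := by exact_mod_cast hs
  have hsq : 0 < √(n : ℝ) := by linarith
  have hss : √(n : ℝ) * √(n : ℝ) = n := Real.mul_self_sqrt (Nat.cast_nonneg n)
  set lo : α ⊕ β → ℕ := fun i => min (x i) (y i) with hlo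
  set hi : α ⊕ β → ℕ := fun i => max (x i) (y i) with hhi
  have hlohi : ∀ i, lo i + 1 ≤ hi i := by
    intro i
    have := hne i
    simp only [hlo, hhi]
    omega
  have hlom : ∀ i, m ≤ lo i := fun i => le_min (hx i).1 (hy i).1
  have hhim : ∀ i, hi i ≤ m + s := fun i => max_le (hx i).2 (hy i).2
  set D : α ⊕ β → ℤ := fun i => tr (hi i) - tr (lo i) with hD
  have hD2 : ∀ i, 2 * D i = (hi i : ℤ) * (hi i + 1) - lo i * (lo i + 1) := by
    intro i
    simp only [hD]
    rw [mul_sub, tr_two, tr_two]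
  have hD1 : ∀ i, ((m + 1 : ℕ) : ℤ) ≤ D i := by
    intro i
    have h2 := hD2 i
    have h3 : (lo i : ℤ) + 1 ≤ hi i := by exact_mod_cast hlohi i
    have h4 : (m : ℤ) ≤ lo i := by exact_mod_cast hlom i
    have h5 : (0 : ℤ) ≤ m := Int.natCast_nonneg m
    push_cast
    nlinarith
  have hD3 : ∀ i, |(D i : ℝ)| ≤ m * (s * (s + 3) / 2) := by
    intro i
    have h0 : (0 : ℤ) ≤ D i := le_trans (Int.natCast_nonneg _) (hD1 i)
    have h0R : (0 : ℝ) ≤ (D i : ℝ) := by exact_mod_cast h0
    rw [abs_of_nonneg h0R]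
    have h2 : 2 * (D i : ℝ) = (hi i : ℝ) * (hi i + 1) - lo i * (lo i + 1) := by exact_mod_cast hD2 i
    have h3 : (hi i : ℝ) ≤ m + s := by exact_mod_cast hhim i
    have h4 : (m : ℝ) ≤ lo i := by exact_mod_cast hlom i
    have h5 : (0 : ℝ) ≤ hi i := Nat.cast_nonneg _
    have h6 : (hi i : ℝ) * (hi i + 1) ≤ (m + s) * (m + s + 1) := by
      apply mul_le_mul h3 (by linarith) (by linarith) (by linarith)
    have h7 : (m : ℝ) * (m + 1) ≤ lo i * (lo i + 1) := by
      apply mul_le_mul h4 (by linarith) (by linarith) (by linarith)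
    nlinarith [mul_nonneg (show (0 : ℝ) ≤ m - 1 by linarith) (show (0 : ℝ) ≤ s * (s + 1) by positivity)]
  set b : ℤ := ∑ i, tr (lo i) with hb
  set g : ℝ := m * √(n : ℝ) with hg
  have hg0 : 0 < g := by positivity
  -- the map to pairs of sets
  have key := two_point (α := α) (β := β) (fun i => D (Sum.inl i)) (fun i => D (Sum.inr i)) (L := m + 1) (M := m + s)
    (q := s) (Δ := m * (s * (s + 3) / 2)) (g := g) (b := b) (by omega) (fun i => hD1 _) (fun i => hD1 _)
    (fun i => hD3 _) (fun i => hD3 _) (by nlinarith) hg0 (by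
      push_cast
      nlinarith) (by
      intro d hd
      have h2 : (m : ℤ) * (m + 1) * n ≤ 2 * b := by
        rw [hb, mul_sum]
        have h3 : ∀ i ∈ (univ : Finset (α ⊕ β)), (m : ℤ) * (m + 1) ≤ 2 * tr (lo i) := by
          intro i _
          rw [tr_two]
          have h4 : (m : ℤ) ≤ lo i := by exact_mod_cast hlom i
          have h5 : (0 : ℤ) ≤ m := Int.natCast_nonneg m
          nlinarith
        have h4 := card_nsmul_le_sum _ _ _ h3
        rw [card_univ, Fintype.card_sum, hn, nsmul_eq_mul] at h4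
        linarith
      have h3 := T_two d
      have h4 : (m : ℤ) * m * n ≤ (d + 2) * (d + 2) := by
        have h5 : (0 : ℤ) ≤ (m : ℤ) * n := by positivity
        have h6 : (0 : ℤ) ≤ d := Int.natCast_nonneg d
        nlinarith
      have h5 : (m : ℝ) * m * n ≤ (d + 2) * (d + 2) := by exact_mod_cast h4
      have h6 : g ^ 2 ≤ ((d : ℝ) + 2) ^ 2 := by
        rw [hg]
        nlinarith
      exact le_of_sq_le_sq h6 (by positivity))
  have hcards : ((Fintype.card α + Fintype.card β : ℝ)) = n := by exact_mod_cast hn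
  have hconst : 2 * ((Fintype.card α + Fintype.card β : ℝ) * ((m : ℝ) * (s * (s + 3) / 2)) ^ 2) / g ^ 2 =
      (s : ℝ) ^ 2 * (s + 3) ^ 2 / 2 := by
    rw [hcards, hg, mul_pow, mul_pow, pow_two (√(n : ℝ)), hss]
    have hn0 : (n : ℝ) ≠ 0 := by
      rw [← hss]
      positivity
    have hm0 : (m : ℝ) ≠ 0 := by positivity
    field_simp
  rw [hconst] at key
  refine le_trans ?_ key
  apply Nat.cast_le.2
  apply card_le_card_of_injOn (fun ε : α ⊕ β → Bool =>
    ((univ : Finset α).filter (fun j => mix x y ε (Sum.inl j) = hi (Sum.inl j)),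
      (univ : Finset β).filter (fun j => mix x y ε (Sum.inr j) = hi (Sum.inr j))))
  · intro ε hε
    rw [mem_coe, mem_filter] at hε ⊢
    refine ⟨mem_univ _, ?_⟩
    obtain ⟨_, d, h2, h3⟩ := hε
    have hmix : ∀ i, mix x y ε i ≠ hi i → mix x y ε i = lo i := by
      intro i h
      unfold mix at h ⊢
      simp only [hlo, hhi] at h ⊢
      split_ifs at h ⊢ with he
      · rcases le_total (x i) (y i) with h4 | h4
        · exact absurd (max_eq_right h4).symm h
        · exact (min_eq_right h4).symm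
      · rcases le_total (x i) (y i) with h4 | h4
        · exact (min_eq_left h4).symm
        · exact absurd (max_eq_left h4).symm h
    have hval : ∀ i, tr (mix x y ε i) = tr (lo i) + if mix x y ε i = hi i then D i else 0 := by
      intro i
      split_ifs with h
      · rw [h]
        simp only [hD]
        ring
      · rw [hmix i h, add_zero]
    have hsum : ∑ i, tr (mix x y ε i) = b + S2 (fun i => D (Sum.inl i)) (fun i => D (Sum.inr i))
        ((univ : Finset α).filter (fun j => mix x y ε (Sum.inl j) = hi (Sum.inl j)),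
      (univ : Finset β).filter (fun j => mix x y ε (Sum.inr j) = hi (Sum.inr j))) := by
      rw [sum_congr rfl fun i _ => hval i, sum_add_distrib, ← hb]
      congr 1
      rw [Fintype.sum_sum_type]
      unfold S2
      rw [sum_filter, sum_filter]
    rw [hsum] at h2 h3
    exact ⟨d, h2, h3⟩
  · intro ε _ ε' _ h
    simp only [Prod.mk.injEq] at h
    have h2 : ∀ i, (mix x y ε i = hi i ↔ mix x y ε' i = hi i) := by
      intro i
      rcases i with j | j
      · have := Finset.ext_iff.1 h.1 j
        simpa using this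
      · have := Finset.ext_iff.1 h.2 j
        simpa using this
    funext i
    exact bool_aux (x i) (y i) (hne i) (ε i) (ε' i) (h2 i)

end

end Pool.Agent.Zk91.RG
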