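import Pool.Agent.Zk91.RG.Box
import Pool.Agent.Y536.SH.OpenW

set_option autoImplicit false

/-!
# Vectors of multiplicities: all degrees
-/

namespace Pool.Agent.Zk91.RG

open Finset MvPolynomial Pool.Agent.H248R5

/-- For the points `P` and EVERY degree `d`: `|d H - ∑ v i E i|` is nonspecial; if it is not empty, its general member is
smooth; and if `∑ (v i + 1).choose 2 < (d + 2).choose 2`, then every `|d H - ∑ u i E i|` with `u ≤ v` is nonspecial, of the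
dimension of independent conditions, and has a smooth general member. -/
def AllDegrees {n : ℕ} (v : Fin n → ℕ) (P : Fin n → Fin 2 → ℂ) : Prop :=
  ∀ d : ℕ, Module.finrank ℂ ↥(forms v P d) = (d + 2).choose 2 - ∑ i, (v i + 1).choose 2 ∧
    (forms v P d ≠ ⊥ → GeneralMember (forms v P d) (SmoothMember v P)) ∧
    (∑ i, (v i + 1).choose 2 < (d + 2).choose 2 → ∀ u : Fin n → ℕ, (∀ i, u i ≤ v i) →
      Module.finrank ℂ ↥(forms u P d) + ∑ i, (u i + 1).choose 2 = (d + 2).choose 2 ∧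
        GeneralMember (forms u P d) (SmoothMember u P))

lemma sum_tr {n : ℕ} (v : Fin n → ℕ) : ∑ i, tr (v i) = ((∑ i, (v i + 1).choose 2 : ℕ) : ℤ) := by
  unfold tr
  push_cast
  rfl

lemma vec_good {n m s : ℕ} (hm : 1 ≤ m) (v : Fin n → ℕ) (hv : ∀ i, m ≤ v i ∧ v i ≤ m + s)
    (h1 : 1000 * ((s : ℝ) + 2) ≤ √(n : ℝ)) (h2 : 2000000 * ((s : ℝ) + 2) ^ 3 ≤ m * √(n : ℝ))
    (hb : ¬ BadV (m + s) v) :
    ∃ F : MvPolynomial (Fin n × Fin 2) ℚ, F ≠ 0 ∧ ∀ P : Fin n → Fin 2 → ℂ,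
      MvPolynomial.aeval (fun ij : Fin n × Fin 2 => P ij.1 ij.2) F ≠ 0 → AllDegrees v P := by
  obtain ⟨F, hF, hF'⟩ := Pool.Agent.Y536.SH.near_smooth (K := ℂ) hm hv h1 h2
  refine ⟨F, hF, fun P hP d => ?_⟩
  obtain ⟨h3, h4⟩ := hF' P hP
  have h5 : Module.finrank ℂ ↥(forms v P d) = (d + 2).choose 2 - ∑ i, (v i + 1).choose 2 := h3 d
  have gap : ∑ i, (v i + 1).choose 2 < (d + 2).choose 2 → ∀ k, ∑ i, (v i + 1).choose 2 + v k + 1 ≤ (d + 2).choose 2 := by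
    intro h6 k
    by_contra hcon
    apply hb
    have h7 := (hv k).2
    refine ⟨d, ?_, ?_⟩
    · rw [sum_tr]
      unfold T
      have : (d + 2).choose 2 ≤ ∑ i, (v i + 1).choose 2 + (m + s) := by omega
      have h8 : (((d + 2).choose 2 : ℕ) : ℤ) ≤ ((∑ i, (v i + 1).choose 2 + (m + s) : ℕ) : ℤ) := by exact_mod_cast this
      push_cast at h8 ⊢
      linarith
    · rw [sum_tr]
      unfold T
      exact_mod_cast h6
  refine ⟨h5, fun hne => ?_, fun h6 u hu => h4 u hu d (gap h6)⟩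
  have h6 : ∑ i, (v i + 1).choose 2 < (d + 2).choose 2 := by
    by_contra hcon
    apply hne
    have hfin := Pool.Agent.H248R6.forms_finite v P d
    refine Submodule.finrank_eq_zero.1 ?_
    rw [h5]
    omega
  exact (h4 v (fun _ => le_rfl) d (gap h6)).2

open scoped Classical in
theorem vec_main {n m s : ℕ} (hm : 1 ≤ m) (W : Fin n → Finset ℕ) (hW : ∀ i, 2 ≤ (W i).card)
    (hW2 : ∀ i, ∀ a ∈ W i, m ≤ a ∧ a ≤ m + s) (h1 : 1000 * ((s : ℝ) + 2) ≤ √(n : ℝ))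
    (h2 : 2000000 * ((s : ℝ) + 2) ^ 3 ≤ m * √(n : ℝ)) :
    ∃ E ⊆ Fintype.piFinset W, (E.card : ℝ) ≤ 30 * ((s : ℝ) + 2) ^ 5 / √(n : ℝ) * (Fintype.piFinset W).card ∧
      ∃ F : MvPolynomial (Fin n × Fin 2) ℚ, F ≠ 0 ∧ ∀ P : Fin n → Fin 2 → ℂ,
        MvPolynomial.aeval (fun ij : Fin n × Fin 2 => P ij.1 ij.2) F ≠ 0 →
          ∀ v ∈ Fintype.piFinset W \ E, AllDegrees v P := by
  refine ⟨(Fintype.piFinset W).filter fun v => BadV (m + s) v, filter_subset _ _, box hm W hW hW2 h1, ?_⟩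
  have key : ∀ v : Fin n → ℕ, ∃ F : MvPolynomial (Fin n × Fin 2) ℚ, F ≠ 0 ∧ ∀ P : Fin n → Fin 2 → ℂ,
      MvPolynomial.aeval (fun ij : Fin n × Fin 2 => P ij.1 ij.2) F ≠ 0 →
        v ∈ Fintype.piFinset W \ ((Fintype.piFinset W).filter fun v => BadV (m + s) v) → AllDegrees v P := by
    intro v
    by_cases hv : v ∈ Fintype.piFinset W \ ((Fintype.piFinset W).filter fun v => BadV (m + s) v)
    · rw [mem_sdiff, mem_filter] at hv
      obtain ⟨F, hF, hF'⟩ := vec_good (s := s) hm v (fun i => hW2 i _ (Fintype.mem_piFinset.1 hv.1 i)) h1 h2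
        (fun hb => hv.2 ⟨hv.1, hb⟩)
      exact ⟨F, hF, fun P hP _ => hF' P hP⟩
    · exact ⟨1, one_ne_zero, fun P _ h => absurd h hv⟩
  choose F hF hF' using key
  refine ⟨∏ v ∈ Fintype.piFinset W, F v, Finset.prod_ne_zero_iff.2 fun v _ => hF v, fun P hP v hv => ?_⟩
  rw [map_prod, Finset.prod_ne_zero_iff] at hP
  exact hF' v P (hP v (mem_sdiff.1 hv).1) hv

end Pool.Agent.Zk91.RG
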